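import Pool.Agent.Y910.A.A6

/-!
One weighted model for all integer points of a curve with a large integer point.
-/

open Polynomial Filter

namespace Pool.Agent.Y910.E

open Pool.Agent.H322R2 Pool.Agent.Y910.S Pool.Agent.Y910.G Pool.Agent.Y910.A

/-- the value of a polynomial at an integer point -/
noncomputable def va (W : ℚ[X][X]) (x y : ℤ) : ℚ := e2 (RingHom.id ℚ) (x : ℚ) (y : ℚ) W

/-- one model for all integer points -/
def GoodA (M T : ℕ) (F : ℤ[X][X]) : Prop :=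
  ∃ (N r : ℕ) (c : ℕ → ℕ → ℚ) (g : ℚ[X]) (Φ Ψ : ℚ[X][X]), Mod F N r c g Φ Ψ ∧ N ≤ M ∧ r ≤ M ∧
    (∀ i j, Ht (T ^ M) (c i j)) ∧
    (∃ D : ℕ, 0 < D ∧ D ≤ T ^ M ∧ ∀ x y : ℤ, (∃ z : ℤ, (D : ℚ) * va Φ x y = z) ∧
      ∃ z : ℤ, (D : ℚ) * va Ψ x y = z) ∧
    (∀ x y : ℤ, ev x y F = 0 → |(x : ℚ)| ≤ ((T : ℚ) * (1 + |va Φ x y|)) ^ M) ∧
    (∀ x y : ℤ, |va Φ x y| ≤ ((T : ℚ) * (1 + |(x : ℚ)| + |(y : ℚ)|)) ^ M) ∧
    (∀ s : Finset (ℤ × ℤ), ∀ u : ℚ, (∀ p ∈ s, ev p.1 p.2 F = 0 ∧ va Φ p.1 p.2 = u) →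
      s.card ≤ M)

lemma GoodA.mono {M M' T : ℕ} {F : ℤ[X][X]} (hT : 1 ≤ T) (h : GoodA M T F) (hM : M ≤ M') :
    GoodA M' T F := by
  obtain ⟨N, r, c, g, Φ, Ψ, h1, h2, h3, h4, ⟨D, h5, h6, h7⟩, h8, h9, h10⟩ := h
  have hp : T ^ M ≤ T ^ M' := Nat.pow_le_pow_right hT hM
  have hTq : (1 : ℚ) ≤ T := by exact_mod_cast hT
  refine ⟨N, r, c, g, Φ, Ψ, h1, h2.trans hM, h3.trans hM, fun i j => (h4 i j).mono hp,
    ⟨D, h5, h6.trans hp, h7⟩, fun x y hxy => (h8 x y hxy).trans (pow_le_pow_right₀ ?_ hM),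
    fun x y => (h9 x y).trans (pow_le_pow_right₀ ?_ hM), fun s u hs => (h10 s u hs).trans hM⟩
  · have := abs_nonneg (va Φ x y)
    exact one_le_mul_of_one_le_of_one_le hTq (by linarith)
  · have h1 := abs_nonneg (x : ℚ)
    have h2 := abs_nonneg (y : ℚ)
    exact one_le_mul_of_one_le_of_one_le hTq (by linarith)

/-- size of the values of a fixed polynomial -/
lemma val_leq (S : Sca) (W : S.KK[X][X]) : ∃ m : ℕ, ∀ n (x y : ℚ),
    |e2 (RingHom.id ℚ) x y (m2 (S.rho n) W)| ≤ ((S.T n : ℚ) * (1 + |x| + |y|)) ^ m := by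
  have hT2 : ∀ n, (2 : ℚ) ≤ S.T n := fun n => by exact_mod_cast S.hT n
  have hb : ∀ n (x y : ℚ), (2 : ℚ) ≤ (S.T n : ℚ) * (1 + |x| + |y|) := by
    intro n x y
    have h1 := abs_nonneg x
    have h2 := abs_nonneg y
    have h3 := hT2 n
    nlinarith
  have hadd : ∀ p q : S.KK[X][X], (∃ m : ℕ, ∀ n (x y : ℚ),
      |e2 (RingHom.id ℚ) x y (m2 (S.rho n) p)| ≤ ((S.T n : ℚ) * (1 + |x| + |y|)) ^ m) →
      (∃ m : ℕ, ∀ n (x y : ℚ), |e2 (RingHom.id ℚ) x y (m2 (S.rho n) q)|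
        ≤ ((S.T n : ℚ) * (1 + |x| + |y|)) ^ m) →
      (∃ m : ℕ, ∀ n (x y : ℚ), |e2 (RingHom.id ℚ) x y (m2 (S.rho n) (p + q))|
        ≤ ((S.T n : ℚ) * (1 + |x| + |y|)) ^ m) := by
    rintro p q ⟨m, h⟩ ⟨m', h'⟩
    refine ⟨1 + (m + m'), fun n x y => ?_⟩
    rw [map_add, map_add]
    obtain ⟨Y, hY⟩ : ∃ Y, Y = (S.T n : ℚ) * (1 + |x| + |y|) := ⟨_, rfl⟩
    have h1 := h n x y
    have h2 := h' n x y
    have h3 := hb n x y
    rw [← hY] at h1 h2 h3 ⊢
    have h4 : (1 : ℚ) ≤ Y := by linarith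
    have h5 : Y ^ m ≤ Y ^ (m + m') := pow_le_pow_right₀ h4 (by omega)
    have h6 : Y ^ m' ≤ Y ^ (m + m') := pow_le_pow_right₀ h4 (by omega)
    have h7 : 0 < Y ^ (m + m') := by positivity
    refine (abs_add_le _ _).trans ?_
    rw [pow_add Y 1, pow_one]
    nlinarith
  induction W using Polynomial.induction_on' with
  | add p q hp hq => exact hadd p q hp hq
  | monomial j p =>
    induction p using Polynomial.induction_on' with
    | add p q hp hq => rw [map_add]; exact hadd _ _ hp hq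
    | monomial i c =>
      obtain ⟨m, hm⟩ := c.2
      refine ⟨m + (i + j), fun n x y => ?_⟩
      have e : e2 (RingHom.id ℚ) x y (m2 (S.rho n) (monomial j (monomial i c)))
          = ((c : ℕ → ℚ) n) * x ^ i * y ^ j := by
        rw [m2, coe_mapRingHom, map_monomial, coe_mapRingHom, map_monomial,
          ← C_mul_X_pow_eq_monomial, ← C_mul_X_pow_eq_monomial]
        simp only [map_mul, map_pow, e2_CC, e2_CX, e2_X, RingHom.id_apply]
        rfl
      rw [e, abs_mul, abs_mul, abs_pow, abs_pow]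
      have h1 := (hm n).abs_le
      push_cast at h1
      obtain ⟨Y, hY⟩ : ∃ Y, Y = (S.T n : ℚ) * (1 + |x| + |y|) := ⟨_, rfl⟩
      have hTn := hT2 n
      have hxn := abs_nonneg x
      have hyn := abs_nonneg y
      have hYT : (S.T n : ℚ) ≤ Y := by rw [hY]; nlinarith
      have hYx : |x| ≤ Y := by rw [hY]; nlinarith
      have hYy : |y| ≤ Y := by rw [hY]; nlinarith
      rw [← hY, pow_add, pow_add, ← mul_assoc]
      have hY0 : 0 ≤ Y := by linarith
      apply mul_le_mul _ (pow_le_pow_left₀ hyn hYy _) (by positivity) (by positivity)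
      apply mul_le_mul _ (pow_le_pow_left₀ hxn hYx _) (by positivity) (by positivity)
      exact h1.trans (pow_le_pow_left₀ (by linarith) hYT _)

lemma e2_eval {R U : Type*} [CommRing R] [CommRing U] (f : R →+* U) (u z : U) (W : R[X][X]) :
    e2 f u z W = (W.map (eval₂RingHom f u)).eval z := by
  rw [e2, coe_eval₂RingHom, eval_map]

/-- roots of a monic polynomial over the bounded sequences -/
lemma root_leq (S : Sca) (A : S.KK[X][X]) (hA : A.Monic) : ∃ m : ℕ, ∀ n (u z : ℚ),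
    e2 (RingHom.id ℚ) u z (m2 (S.rho n) A) = 0 → |z| ≤ ((S.T n : ℚ) * (1 + |u|)) ^ m := by
  choose m hm using fun i => val_leq S (C (A.coeff i))
  obtain ⟨M, hM⟩ : ∃ M, M = ∑ i ∈ Finset.range A.natDegree, m i := ⟨_, rfl⟩
  refine ⟨A.natDegree + M, fun n u z hz => ?_⟩
  obtain ⟨Y, hY⟩ : ∃ Y, Y = (S.T n : ℚ) * (1 + |u|) := ⟨_, rfl⟩
  have hT2 : (2 : ℚ) ≤ S.T n := by exact_mod_cast S.hT n
  have hu := abs_nonneg u
  have hY2 : 2 ≤ Y := by rw [hY]; nlinarith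
  have hY1 : 1 ≤ Y := by linarith
  rw [← hY]
  by_cases hz1 : |z| ≤ 1
  · exact hz1.trans (one_le_pow₀ hY1)
  push Not at hz1
  have hco : ∀ i, e2 (RingHom.id ℚ) u z (m2 (S.rho n) (C (A.coeff i)))
      = e2 (RingHom.id ℚ) u 0 (m2 (S.rho n) (C (A.coeff i))) := by
    intro i
    have : m2 (S.rho n) (C (A.coeff i)) = C (mapRingHom (S.rho n) (A.coeff i)) := by
      rw [m2, coe_mapRingHom, map_C]
    rw [this, e2_C, e2_C]
  have hle : ∀ i ∈ Finset.range A.natDegree, |e2 (RingHom.id ℚ) u z (m2 (S.rho n) (C (A.coeff i)))|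
      ≤ Y ^ M := by
    intro i hi
    rw [hco]
    refine (hm i n u 0).trans ?_
    rw [abs_zero, add_zero, ← hY]
    apply pow_le_pow_right₀ hY1
    rw [hM]
    exact Finset.single_le_sum (f := m) (fun _ _ => Nat.zero_le _) hi
  have hexp : z ^ A.natDegree = - ∑ i ∈ Finset.range A.natDegree,
      e2 (RingHom.id ℚ) u z (m2 (S.rho n) (C (A.coeff i))) * z ^ i := by
    have h1 := A.as_sum_range_C_mul_X_pow
    rw [Finset.sum_range_succ, hA.coeff_natDegree, map_one, one_mul] at h1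
    have h2 : e2 (RingHom.id ℚ) u z (m2 (S.rho n) A) = ∑ i ∈ Finset.range A.natDegree,
        e2 (RingHom.id ℚ) u z (m2 (S.rho n) (C (A.coeff i))) * z ^ i + z ^ A.natDegree := by
      conv_lhs => rw [h1]
      rw [map_add, map_add, map_sum, map_sum, map_pow, map_pow, m2_X, e2_X]
      congr 1
      apply Finset.sum_congr rfl
      intro i _
      rw [map_mul, map_mul, map_pow, map_pow, m2_X, e2_X]
    rw [hz] at h2
    linarith
  have hpos : 0 < A.natDegree := by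
    by_contra h0
    have h0' : A.natDegree = 0 := by omega
    rw [h0'] at hexp
    simp at hexp
  have h3 : |z| ^ A.natDegree ≤ (A.natDegree * Y ^ M) * |z| ^ (A.natDegree - 1) := by
    rw [← abs_pow, hexp, abs_neg]
    refine (Finset.abs_sum_le_sum_abs _ _).trans ?_
    have h4 : ∀ i ∈ Finset.range A.natDegree,
        |e2 (RingHom.id ℚ) u z (m2 (S.rho n) (C (A.coeff i))) * z ^ i|
        ≤ Y ^ M * |z| ^ (A.natDegree - 1) := by
      intro i hi
      rw [abs_mul, abs_pow]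
      exact mul_le_mul (hle i hi) (pow_le_pow_right₀ hz1.le (by rw [Finset.mem_range] at hi; omega))
        (by positivity) (by positivity)
    refine (Finset.sum_le_sum h4).trans ?_
    rw [Finset.sum_const, Finset.card_range, nsmul_eq_mul]
    apply le_of_eq; ring
  have h5 : |z| ^ A.natDegree = |z| * |z| ^ (A.natDegree - 1) := by
    rw [← pow_succ']; congr 1; omega
  rw [h5] at h3
  have h6 : 0 < |z| ^ (A.natDegree - 1) := by positivity
  have h7 := le_of_mul_le_mul_right h3 h6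
  refine h7.trans ?_
  rw [pow_add]
  apply mul_le_mul_of_nonneg_right _ (by positivity)
  calc (A.natDegree : ℚ) ≤ 2 ^ A.natDegree := by exact_mod_cast Nat.lt_two_pow_self.le
    _ ≤ _ := pow_le_pow_left₀ (by norm_num) hY2 _

/-- number of roots -/
lemma root_card (S : Sca) (A : S.KK[X][X]) (hA : A.Monic) (n : ℕ) (u : ℚ) (s : Finset ℤ)
    (hs : ∀ z ∈ s, e2 (RingHom.id ℚ) u (z : ℚ) (m2 (S.rho n) A) = 0) : s.card ≤ A.natDegree := by
  obtain ⟨P, hP⟩ : ∃ P, P = (m2 (S.rho n) A).map (eval₂RingHom (RingHom.id ℚ) u) := ⟨_, rfl⟩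
  have hPm : P.Monic := by
    rw [hP]
    apply Monic.map
    rw [m2, coe_mapRingHom]
    exact hA.map _
  have hPd : P.natDegree ≤ A.natDegree := by
    rw [hP]
    refine (natDegree_map_le).trans ?_
    rw [m2, coe_mapRingHom]
    exact natDegree_map_le
  have h1 : (s.image (fun z : ℤ => (z : ℚ))).card = s.card :=
    Finset.card_image_of_injective _ Int.cast_injective
  rw [← h1]
  refine le_trans ?_ hPd
  refine le_trans ?_ (card_roots' P)
  refine le_trans (Finset.card_le_card ?_) (Multiset.toFinset_card_le P.roots)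
  intro z hz
  rw [Finset.mem_image] at hz
  obtain ⟨w, hw, rfl⟩ := hz
  rw [Multiset.mem_toFinset, mem_roots hPm.ne_zero, IsRoot, hP, ← e2_eval]
  exact hs w hw

end Pool.Agent.Y910.E

namespace Pool.Agent.Y910.G.Dat

open Pool.Agent.H322R2 Pool.Agent.Y910.S Pool.Agent.Y910.A Pool.Agent.Y910.E

variable (Q : Dat)

/-- common denominators -/
lemma denA (W : Q.S.KK[X][X]) : ∃ m : ℕ, ∀ n, ∃ D : ℕ, 0 < D ∧ D ≤ Q.S.T n ^ m ∧
    ∀ x y : ℤ, ∃ z : ℤ, (D : ℚ) * va (m2 (Q.S.rho n) W) x y = z := by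
  obtain ⟨m, K, hc⟩ := Q.S.cle W
  refine ⟨m, fun n => ?_⟩
  obtain ⟨D, V, h1, h2, h3, h4, h5⟩ := hc n
  refine ⟨D, h1, by exact_mod_cast h2, fun x y => ⟨ev x y V, ?_⟩⟩
  rw [← e2_id_qz, h5, map_mul, e2_CC]
  rfl

theorem goodA : ∃ M : ℕ, Ev fun n => GoodA M (Q.S.T n) (Q.F n) := by
  obtain ⟨N, r, c, g, Φ, Ψ, hN, hr, hc, hgm, hgr, hgi, hg0, hgc, hG, ⟨A, hA, hA0⟩, ⟨B, hB, hB0⟩,
    ⟨h, hh, ⟨P1, hP1⟩, ⟨P2, hP2⟩⟩, m0, hu1, hu⟩ := Q.model
  obtain ⟨m1, hm1⟩ := Q.denA Φ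
  obtain ⟨m2', hm2⟩ := Q.denA Ψ
  obtain ⟨m5, hm5⟩ := val_leq Q.S Φ
  obtain ⟨m6, hm6⟩ := root_leq Q.S A hA
  -- heights of the coefficients
  obtain ⟨m3, hm3⟩ : ∃ m : ℕ, ∀ n i j, Ht (Q.S.T n ^ m) (Q.S.rho n (c i j)) := by
    choose m hm using fun i j => (c i j).2
    refine ⟨∑ i ∈ Finset.range ((N + 1) * r + 1), ∑ j ∈ Finset.range (N * r), m i j,
      fun n i j => ?_⟩
    by_cases h0 : c i j = 0
    · rw [h0, map_zero]
      exact Ht.zero (Q.S.one_le n _)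
    · obtain ⟨h1, h2⟩ := hc i j h0
      have h3 : i < (N + 1) * r + 1 := by
        by_contra hcon
        have h4 : (N + 1) * r + 1 ≤ i := by omega
        have h5 : N * ((N + 1) * r + 1) ≤ N * i := Nat.mul_le_mul_left _ h4
        have h6 : N * ((N + 1) * r + 1) = N * (N + 1) * r + N := by ring
        omega
      rw [Q.S.rho_apply]
      refine (hm i j n).mono (Nat.pow_le_pow_right (by have := Q.S.hT n; omega) ?_)
      refine le_trans ?_ (Finset.single_le_sum (f := fun i => ∑ j ∈ Finset.range (N * r), m i j)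
        (fun _ _ => Nat.zero_le _) (Finset.mem_range.2 h3))
      exact Finset.single_le_sum (f := m i) (fun _ _ => Nat.zero_le _) (Finset.mem_range.2 h1)
  obtain ⟨MM, hMM⟩ : ∃ MM, MM = N + r + m3 + (m1 + m2') + m5 + m6 + A.natDegree * B.natDegree :=
    ⟨_, rfl⟩
  refine ⟨MM, ?_⟩
  have dG := Q.dvd_of_zero _ hG
  have dA := Q.dvd_of_zero _ hA0
  have dB := Q.dvd_of_zero _ hB0
  have dP1 := Q.dvd_of_zero _ hP1
  have dP2 := Q.dvd_of_zero _ hP2
  refine (((hgi.and hg0).and (dG.and (dA.and dB))).and ((dP1.and dP2).and hh)).mono ?_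
  rintro n ⟨⟨⟨e1, e2'⟩, e3, e4, e5⟩, ⟨e6, e7⟩, e8⟩
  have hT1 : 1 ≤ Q.S.T n := by have := Q.S.hT n; omega
  have hTq : (1 : ℚ) ≤ Q.S.T n := by exact_mod_cast hT1
  -- equations for the coordinates
  have hxe : ∀ x y : ℤ, ev x y (Q.F n) = 0 →
      e2 (RingHom.id ℚ) (va (m2 (Q.S.rho n) Φ) x y) (x : ℚ) (m2 (Q.S.rho n) A) = 0 := by
    intro x y hxy
    obtain ⟨q, hq⟩ := e4
    rw [m2_sub, m2_CX] at hq
    have h1 := congrArg (e2 (RingHom.id ℚ) (x : ℚ) (y : ℚ)) hq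
    rw [map_mul, e2_id_qz, hxy, Int.cast_zero, zero_mul, e2_sub, e2_CX] at h1
    exact h1
  have hye : ∀ x y : ℤ, ev x y (Q.F n) = 0 →
      e2 (RingHom.id ℚ) (va (m2 (Q.S.rho n) Φ) x y) (y : ℚ) (m2 (Q.S.rho n) B) = 0 := by
    intro x y hxy
    obtain ⟨q, hq⟩ := e5
    rw [m2_sub, m2_X] at hq
    have h1 := congrArg (e2 (RingHom.id ℚ) (x : ℚ) (y : ℚ)) hq
    rw [map_mul, e2_id_qz, hxy, Int.cast_zero, zero_mul, e2_sub, e2_X] at h1
    exact h1
  refine ⟨N, r, fun i j => Q.S.rho n (c i j), g.map (Q.S.rho n), m2 (Q.S.rho n) Φ,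
    m2 (Q.S.rho n) Ψ, ⟨hN, hr, ?_, hgm.map _, by rw [hgm.natDegree_map, hgr], e1,
      by rw [coeff_map]; exact e2', ?_, ?_, ⟨A.map (mapRingHom (Q.S.rho n)), hA.map _, ?_⟩,
      ⟨B.map (mapRingHom (Q.S.rho n)), hB.map _, ?_⟩, ⟨h.map (Q.S.rho n), e8, ⟨m2 (Q.S.rho n) P1, ?_⟩,
        ⟨m2 (Q.S.rho n) P2, ?_⟩⟩⟩, by omega, by omega, ?_, ?_, ?_, ?_, ?_⟩
  · intro i j hij
    apply hc
    intro h0
    rw [h0, map_zero] at hij
    exact hij rfl
  · intro l hl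
    rw [coeff_map, hgc l hl]
  · have := e3
    simp only [map_add, map_pow, map_sum, map_mul, m2_CC] at this
    exact this
  · rw [m2_sub, m2_CX] at e4; exact e4
  · rw [m2_sub, m2_X] at e5; exact e5
  · rw [map_sub, map_mul, m2_sub, m2_eval1, m2_CX] at e6; exact e6
  · rw [map_sub, map_mul, m2_sub, m2_eval1, m2_X] at e7; exact e7
  · intro i j
    exact (hm3 n i j).mono (Nat.pow_le_pow_right hT1 (by omega))
  · obtain ⟨D1, f1, f2, f3⟩ := hm1 n
    obtain ⟨D2, f1', f2', f3'⟩ := hm2 n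
    refine ⟨D1 * D2, Nat.mul_pos f1 f1', ?_, fun x y => ?_⟩
    · calc D1 * D2 ≤ Q.S.T n ^ m1 * Q.S.T n ^ m2' := Nat.mul_le_mul f2 f2'
        _ = Q.S.T n ^ (m1 + m2') := by rw [pow_add]
        _ ≤ _ := Nat.pow_le_pow_right hT1 (by omega)
    · obtain ⟨z1, hz1⟩ := f3 x y
      obtain ⟨z2, hz2⟩ := f3' x y
      refine ⟨⟨D2 * z1, ?_⟩, ⟨D1 * z2, ?_⟩⟩
      · push_cast
        rw [← hz1]; ring
      · push_cast
        rw [← hz2]; ring
  · intro x y hxy
    refine (hm6 n _ _ (hxe x y hxy)).trans (pow_le_pow_right₀ ?_ (by omega))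
    have := abs_nonneg (va (m2 (Q.S.rho n) Φ) x y)
    exact one_le_mul_of_one_le_of_one_le hTq (by linarith)
  · intro x y
    refine (hm5 n _ _).trans (pow_le_pow_right₀ ?_ (by omega))
    have h1 := abs_nonneg (x : ℚ)
    have h2 := abs_nonneg (y : ℚ)
    exact one_le_mul_of_one_le_of_one_le hTq (by linarith)
  · intro s u hs
    have h1 : (s.image Prod.fst).card ≤ A.natDegree := by
      apply root_card Q.S A hA n u
      intro z hz
      rw [Finset.mem_image] at hz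
      obtain ⟨p, hp, rfl⟩ := hz
      have := hxe p.1 p.2 (hs p hp).1
      rwa [(hs p hp).2] at this
    have h2 : (s.image Prod.snd).card ≤ B.natDegree := by
      apply root_card Q.S B hB n u
      intro z hz
      rw [Finset.mem_image] at hz
      obtain ⟨p, hp, rfl⟩ := hz
      have := hye p.1 p.2 (hs p hp).1
      rwa [(hs p hp).2] at this
    have h3 : s ⊆ (s.image Prod.fst) ×ˢ (s.image Prod.snd) := Finset.subset_product
    calc s.card ≤ ((s.image Prod.fst) ×ˢ (s.image Prod.snd)).card := Finset.card_le_card h3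
      _ = (s.image Prod.fst).card * (s.image Prod.snd).card := Finset.card_product _ _
      _ ≤ A.natDegree * B.natDegree := Nat.mul_le_mul h1 h2
      _ ≤ MM := by omega

end Pool.Agent.Y910.G.Dat

namespace Pool.Agent.Y910.E

open Pool.Agent.H322R2 Pool.Agent.Y910.S Pool.Agent.Y910.G Pool.Agent.Y910.A

theorem softA (d : ℕ) (hd : 1 ≤ d) : ∃ M : ℕ, ∀ (T : ℕ) (_ : 2 ≤ T) (F : ℤ[X][X]), F.Monic →
    F.natDegree = d → Prime F → (∀ j, (F.coeff j).natDegree ≤ d) → pn (pn zn) F ≤ T →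
    (∀ x y : ℤ, ev x y F = 0 → |x| ≤ (T : ℤ) ^ M) ∨ GoodA M T F := by
  by_contra hcon
  push Not at hcon
  choose T hT F h1 h2 h3 h4 h5 h67 h8 using hcon
  choose x y h6 h7 using h67
  let Q : Dat := ⟨⟨T, hT⟩, d, F, x, y, hd, h1, h2, h3, h4, h5, h6, h7⟩
  obtain ⟨M, hM⟩ := Q.goodA
  obtain ⟨n, hn1, hn2⟩ := (hM.and (ev_ge M)).exists
  exact h8 n (hn1.mono (by have := hT n; show 1 ≤ T n; omega) hn2)

end Pool.Agent.Y910.E
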