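import Pool.Agent.Y910.E.E5
import Pool.Agent.Y910.S.C3

/-!
Interpolation determinants of the points of one branch in a short window vanish.
-/

open Polynomial Finset

namespace Pool.Agent.Y910.E

open Pool.Agent.H322R2 Pool.Agent.Y910.S

theorem window (r p q : ℕ) (hr : 3 ≤ r) (hp : 1 ≤ p) (hq : 1 ≤ q) :
    ∃ c : ℕ, ∀ {A : Type} [CommRing A] {N : RingSeminorm A} {σ : A →+* ℝ} (_ : N 1 ≤ 1)
      (_ : ∀ x, |σ x| ≤ N x) {E : ℕ} {B : ℝ} {G : ℤ[X][X]} (ωS ωU ωV : PowerSeries A) (Z0 : ℝ)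
      (_ : B ^ c ≤ Z0) (f : Fin (r * p) × Fin (10 * q * r) → ℤ × ℤ)
      (Q : ∀ i, BQ N σ p q E B G (f i).1 (f i).2)
      (_ : ∀ i, (Q i).ωS = ωS ∧ (Q i).ωU = ωU ∧ (Q i).ωV = ωV)
      (_ : ∀ i, Z0 ≤ (Q i).Z ∧ (Q i).Z ^ 4 ≤ Z0 ^ 5),
      Matrix.det (Matrix.of fun i (j : Fin (r * p) × Fin (10 * q * r)) =>
        (f i).1 ^ (j.2 : ℕ) * (f i).2 ^ (j.1 : ℕ)) = 0 := by
  obtain ⟨n, hn⟩ : ∃ n, n = (r * p) * (10 * q * r) := ⟨_, rfl⟩
  obtain ⟨m, hm⟩ : ∃ m, m = 11 * (p * q * r) := ⟨_, rfl⟩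
  obtain ⟨L, hL⟩ : ∃ L, L = n * (n - 1) / 2 := ⟨_, rfl⟩
  obtain ⟨k0, hk0⟩ : ∃ k0 : ℕ, k0 = ((L + 1) ^ n * n.factorial) ^ 4 := ⟨_, rfl⟩
  refine ⟨8 * (m * n) + 8 * L + k0 + 1, ?_⟩
  intro A _ N σ h1 hσ E B G ωS ωU ωV Z0 hZ0 f Q hQ hw
  obtain ⟨e, -⟩ : ∃ e : Fin n ≃ Fin (r * p) × Fin (10 * q * r), True :=
    ⟨(finCongr hn).trans finProdFinEquiv.symm, trivial⟩
  have hpqr : 1 ≤ p * q * r := Nat.mul_pos (Nat.mul_pos hp hq) (by omega)
  have hnp : n = 10 * (p * q * r) * r := by rw [hn]; ring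
  have hn30 : 30 * (p * q * r) ≤ n := by
    rw [hnp]
    calc 30 * (p * q * r) = 10 * (p * q * r) * 3 := by ring
      _ ≤ _ := Nat.mul_le_mul_left _ hr
  have hn1 : 1 ≤ n := by omega
  have h4L : 5 * (m * n) + 1 ≤ 4 * L := by
    have h2 : 2 ∣ n * (n - 1) := by
      have := Nat.even_mul_pred_self n
      exact this.two_dvd
    have h3 : 4 * L = 2 * (n * (n - 1)) := by omega
    rw [h3]
    have h5 : 5 * m + 1 ≤ 2 * (n - 1) := by omega
    calc 5 * (m * n) + 1 ≤ 5 * (m * n) + n := by omega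
      _ = n * (5 * m + 1) := by ring
      _ ≤ n * (2 * (n - 1)) := Nat.mul_le_mul_left _ h5
      _ = _ := by ring
  obtain ⟨P0, hP0⟩ : ∃ P0 : BQ N σ p q E B G (f (e ⟨0, hn1⟩)).1 (f (e ⟨0, hn1⟩)).2,
    P0 = Q (e ⟨0, hn1⟩) := ⟨_, rfl⟩
  have hB := P0.hB
  have hB0 : 0 < B := by linarith
  have hB1 : 1 ≤ B := by linarith
  have hZ01 : 1 ≤ Z0 := (one_le_pow₀ hB1).trans hZ0
  have hZ0p : 0 < Z0 := by linarith
  have hZB : B ^ 2 ≤ Z0 := by
    refine le_trans (pow_le_pow_right₀ hB1 ?_) hZ0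
    have : 1 ≤ L := by omega
    omega
  obtain ⟨ρ, hρ⟩ : ∃ ρ, ρ = B ^ 2 / Z0 := ⟨_, rfl⟩
  have hρ0 : 0 ≤ ρ := by rw [hρ]; positivity
  have hρ1 : ρ ≤ 1 := by rw [hρ, div_le_one hZ0p]; exact hZB
  have hwt : ∀ j : Fin (r * p) × Fin (10 * q * r), p * (j.2 : ℕ) + q * (j.1 : ℕ) ≤ m := by
    intro j
    have e1 : p * (j.2 : ℕ) ≤ p * (10 * q * r) := Nat.mul_le_mul_left _ j.2.2.le
    have e2 : q * (j.1 : ℕ) ≤ q * (r * p) := Nat.mul_le_mul_left _ j.1.2.le
    calc p * (j.2 : ℕ) + q * (j.1 : ℕ) ≤ p * (10 * q * r) + q * (r * p) := add_le_add e1 e2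
      _ = m := by rw [hm]; ring
  have hwt1 : ∀ j : Fin (r * p) × Fin (10 * q * r), (j.2 : ℕ) + (j.1 : ℕ) ≤ m := by
    intro j
    refine le_trans ?_ (hwt j)
    apply add_le_add
    · exact Nat.le_mul_of_pos_left _ (by omega)
    · exact Nat.le_mul_of_pos_left _ (by omega)
  -- the common functions
  obtain ⟨φ, hφ⟩ : ∃ φ : Fin (r * p) × Fin (10 * q * r) → PowerSeries A, φ = fun j =>
    ωS ^ (m - p * (j.2 : ℕ) - q * (j.1 : ℕ)) * (ωU ^ (j.2 : ℕ) * ωV ^ (j.1 : ℕ)) := ⟨_, rfl⟩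
  have hmono : ∀ i j, mono (Q i) m (j.2 : ℕ) (j.1 : ℕ) = φ j := by
    intro i j
    obtain ⟨g1, g2, g3⟩ := hQ i
    rw [mono, g1, g2, g3, hφ]
  have hPZ : ∀ i, 0 < (Q i).Z := fun i => (Q i).Z_pos
  have hratio : ∀ i, B / (Q i).Z / (1 / B) = B ^ 2 / (Q i).Z := by
    intro i
    have := hPZ i
    field_simp
  have hratle : ∀ i, B ^ 2 / (Q i).Z ≤ ρ := by
    intro i
    rw [hρ]
    exact div_le_div_of_nonneg_left (by positivity) hZ0p (hw i).1
  have hsplit : ∀ i j, ∃ R : ℝ, PowerSeries.constantCoeff (sb (Q i).θ (PowerSeries.map σ (φ j)))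
      = ∑ l ∈ range L, σ (PowerSeries.coeff l (φ j)) *
        (PowerSeries.constantCoeff (Q i).θ) ^ l + R ∧ |R| ≤ B ^ m * ρ ^ L := by
    intro i j
    obtain ⟨R, hR1, hR2⟩ := splitJ σ hσ (Q i).ρ_pos (Q i).q_nonneg (Q i).rad_le (Q i).r_pos (Q i).θ
      (Q i).hθ (φ j) (by rw [← hmono i j]; exact bd_mono h1 (Q i) m _ _) L
    refine ⟨R, hR1, hR2.trans ?_⟩
    rw [hratio, mul_comm]
    have hz := hPZ i
    apply mul_le_mul _ _ (by positivity) (by positivity)
    · exact pow_le_pow_right₀ hB1 (hwt1 j)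
    · exact pow_le_pow_left₀ (by positivity) (hratle i) _
  choose R hR1 hR2 using hsplit
  obtain ⟨c, hc⟩ : ∃ c : Fin n → ℕ → ℝ, c = fun j l => σ (PowerSeries.coeff l (φ (e j))) := ⟨_, rfl⟩
  obtain ⟨t, ht⟩ : ∃ t : Fin n → ℝ, t = fun i => PowerSeries.constantCoeff (Q (e i)).θ := ⟨_, rfl⟩
  have hτle : ∀ i, |PowerSeries.constantCoeff (Q i).θ| ≤ B / (Q i).Z := by
    intro i
    have := (Q i).hθ.coeff_le (Q i).r_pos.le 0
    simpa using this
  have hdb := det_bound n L hL c t (fun i j => R (e i) (e j)) (B ^ m) ρ (one_le_pow₀ hB1) hρ0 hρ1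
    (by
      intro j l hl i
      rw [hc, ht]
      simp only
      rw [abs_mul, abs_pow]
      have g1 : |σ (PowerSeries.coeff l (φ (e j)))| ≤ B ^ m * B ^ l := by
        refine (hσ _).trans ?_
        rw [← hmono (e i) (e j)]
        refine (coeffN_le (Q (e i)).B_pos le_rfl (bd_mono h1 (Q (e i)) m _ _) l).trans ?_
        apply mul_le_mul_of_nonneg_right _ (by positivity)
        exact pow_le_pow_right₀ hB1 (hwt1 (e j))
      have hz := hPZ (e i)
      calc |σ (PowerSeries.coeff l (φ (e j)))| * |PowerSeries.constantCoeff (Q (e i)).θ| ^ l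
          ≤ (B ^ m * B ^ l) * (B / (Q (e i)).Z) ^ l :=
            mul_le_mul g1 (pow_le_pow_left₀ (abs_nonneg _) (hτle _) _) (by positivity)
              (by positivity)
        _ = B ^ m * (B ^ 2 / (Q (e i)).Z) ^ l := by
            rw [mul_assoc, ← mul_pow]
            congr 2
            field_simp
        _ ≤ _ := by
            apply mul_le_mul_of_nonneg_left _ (by positivity)
            exact pow_le_pow_left₀ (by positivity) (hratle _) _)
    (fun i j => hR2 (e i) (e j))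
  -- the integral determinant
  obtain ⟨M, hM⟩ : ∃ M : Matrix (Fin (r * p) × Fin (10 * q * r)) (Fin (r * p) × Fin (10 * q * r)) ℤ,
    M = Matrix.of fun i (j : Fin (r * p) × Fin (10 * q * r)) =>
        (f i).1 ^ (j.2 : ℕ) * (f i).2 ^ (j.1 : ℕ) := ⟨_, rfl⟩
  rw [← hM]
  have hMr : ((M.det : ℤ) : ℝ) = (∏ i, (PowerSeries.constantCoeff (Q (e i)).S) ^ m) *
      (Matrix.of fun i j => ∑ l ∈ range L, c j l * t i ^ l + R (e i) (e j)).det := by
    rw [← Matrix.det_mul_column]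
    have g1 : ((M.det : ℤ) : ℝ) = (M.map (Int.castRingHom ℝ)).det := by
      have := RingHom.map_det (Int.castRingHom ℝ) M
      exact this
    rw [g1, ← Matrix.det_submatrix_equiv_self e]
    congr 1
    ext i j
    rw [Matrix.submatrix_apply, Matrix.map_apply, hM, Matrix.of_apply, Matrix.of_apply,
      Matrix.of_apply, eq_intCast, mono_val hσ (Q (e i)) m _ _ (hwt (e j)), hmono (e i) (e j),
      hR1 (e i) (e j), hc, ht]
  -- the estimate
  have hS : ∀ i, |PowerSeries.constantCoeff (Q i).S| ≤ B * (Q i).Z := by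
    intro i
    have := (Q i).hS.coeff_le (Q i).r_pos.le 0
    simpa using this
  have hprod : (∏ i, |PowerSeries.constantCoeff (Q (e i)).S| ^ m) ^ 4
      ≤ (B ^ 4 * Z0 ^ 5) ^ (m * n) := by
    rw [← Finset.prod_pow]
    have g1 : ∀ i ∈ (univ : Finset (Fin n)), (|PowerSeries.constantCoeff (Q (e i)).S| ^ m) ^ 4
        ≤ (B ^ 4 * Z0 ^ 5) ^ m := by
      intro i _
      have hz := hPZ (e i)
      calc (|PowerSeries.constantCoeff (Q (e i)).S| ^ m) ^ 4
          = (|PowerSeries.constantCoeff (Q (e i)).S| ^ 4) ^ m := by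
            rw [← pow_mul, ← pow_mul, mul_comm m 4]
        _ ≤ ((B * (Q (e i)).Z) ^ 4) ^ m := by
            apply pow_le_pow_left₀ (by positivity)
            exact pow_le_pow_left₀ (abs_nonneg _) (hS _) _
        _ ≤ _ := by
            apply pow_le_pow_left₀ (by positivity)
            rw [mul_pow]
            exact mul_le_mul_of_nonneg_left (hw (e i)).2 (by positivity)
    refine (Finset.prod_le_prod (fun i _ => by positivity) g1).trans ?_
    rw [Finset.prod_const, Finset.card_univ, Fintype.card_fin, ← pow_mul]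
  have hfin : ((M.det : ℤ) : ℝ) ^ 4 < 1 := by
    have g1 : ((M.det : ℤ) : ℝ) ^ 4 = |((M.det : ℤ) : ℝ)| ^ 4 := by
      rw [← abs_pow, abs_of_nonneg (by positivity)]
    rw [g1, hMr, abs_mul, Finset.abs_prod, mul_pow]
    simp only [abs_pow]
    have g2 : (((L : ℝ) + 1) ^ n * (n.factorial * ((B ^ m) ^ n * ρ ^ L))) ^ 4
        = (k0 : ℝ) * (B ^ (4 * (m * n)) * ρ ^ (4 * L)) := by
      rw [hk0]
      push_cast
      ring
    calc (∏ i, |PowerSeries.constantCoeff (Q (e i)).S| ^ m) ^ 4 *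
          |(Matrix.of fun i j => ∑ l ∈ range L, c j l * t i ^ l + R (e i) (e j)).det| ^ 4
        ≤ (B ^ 4 * Z0 ^ 5) ^ (m * n) * ((k0 : ℝ) * (B ^ (4 * (m * n)) * ρ ^ (4 * L))) := by
          rw [← g2]
          apply mul_le_mul hprod _ (by positivity) (by positivity)
          exact pow_le_pow_left₀ (abs_nonneg _) hdb 4
      _ < 1 := by
          have g3 : ρ ^ (4 * L) = B ^ (8 * L) / Z0 ^ (4 * L) := by
            rw [hρ, div_pow, ← pow_mul]
            congr 2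
            ring
          rw [g3, mul_div_assoc', mul_div_assoc', mul_div_assoc', div_lt_one (by positivity)]
          have g4 : (k0 : ℝ) < B ^ (k0 + 1) := by
            calc (k0 : ℝ) < 2 ^ k0 := by exact_mod_cast Nat.lt_two_pow_self
              _ ≤ B ^ k0 := pow_le_pow_left₀ (by norm_num) hB _
              _ ≤ _ := pow_le_pow_right₀ hB1 (by omega)
          have g5 : (k0 : ℝ) * (B ^ (8 * (m * n)) * B ^ (8 * L)) < Z0 := by
            refine lt_of_lt_of_le ?_ hZ0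
            rw [pow_add, pow_add, pow_add, mul_comm (k0 : ℝ), mul_assoc (B ^ (8 * (m * n)) *
              B ^ (8 * L))]
            apply mul_lt_mul_of_pos_left _ (by positivity)
            rw [← pow_add]
            exact g4
          calc (B ^ 4 * Z0 ^ 5) ^ (m * n) * ((k0 : ℝ) * (B ^ (4 * (m * n)) * B ^ (8 * L)))
              = Z0 ^ (5 * (m * n)) * ((k0 : ℝ) * (B ^ (8 * (m * n)) * B ^ (8 * L))) := by
                rw [mul_pow, ← pow_mul, ← pow_mul]
                have : B ^ (8 * (m * n)) = B ^ (4 * (m * n)) * B ^ (4 * (m * n)) := by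
                  rw [← pow_add]; congr 1; ring
                rw [this]; ring
            _ < Z0 ^ (5 * (m * n)) * Z0 := mul_lt_mul_of_pos_left g5 (by positivity)
            _ = Z0 ^ (5 * (m * n) + 1) := by rw [pow_succ]
            _ ≤ Z0 ^ (4 * L) := pow_le_pow_right₀ hZ01 h4L
  have h8 : |((M.det : ℤ) : ℝ)| < 1 := by
    by_contra hcon
    push Not at hcon
    have g1 : ((M.det : ℤ) : ℝ) ^ 4 = |((M.det : ℤ) : ℝ)| ^ 4 := by
      rw [← abs_pow, abs_of_nonneg (by positivity)]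
    rw [g1] at hfin
    exact absurd (one_le_pow₀ hcon) (not_le.2 hfin)
  have h9 : |M.det| < 1 := by exact_mod_cast h8
  exact Int.abs_lt_one_iff.1 h9

end Pool.Agent.Y910.E
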