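import Pool.Agent.Y910.E.E6
import Pool.Agent.Y910.E.E7

/-!
Number of integer points of one branch whose sizes are polynomially comparable.
-/

open Polynomial Finset

namespace Pool.Agent.Y910.E

open Pool.Agent.H322R2 Pool.Agent.Y910.S

theorem class_card (r p q κ : ℕ) (hr : 3 ≤ r) (hp : 1 ≤ p) (hq : 1 ≤ q) :
    ∃ c C : ℕ, ∀ {A : Type} [CommRing A] {N : RingSeminorm A} {σ : A →+* ℝ} (_ : N 1 ≤ 1)
      (_ : ∀ x, |σ x| ≤ N x) {B : ℝ} {G : ℤ[X][X]} (_ : G.Monic) (_ : G.natDegree = r * p)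
      (_ : Prime G) (_ : ∀ j, (G.coeff j).natDegree ≤ q * r + 1) (ωS ωU ωV : PowerSeries A)
      (Z0 : ℝ) (_ : 2 ≤ B) (_ : B ^ c ≤ Z0) (z : ℤ × ℤ → ℝ) (s : Finset (ℤ × ℤ))
      (_ : ∀ P ∈ s, ∃ Q : BQ N σ p q (q * r + 1) B G P.1 P.2, Q.Z = z P ∧ Q.ωS = ωS ∧
        Q.ωU = ωU ∧ Q.ωV = ωV)
      (_ : ∀ P ∈ s, Z0 ≤ z P ∧ z P ≤ Z0 ^ κ), (s.image Prod.fst).card ≤ C := by
  obtain ⟨c, hc⟩ := window r p q hr hp hq
  obtain ⟨J, hJ⟩ : ∃ J : ℕ, (κ : ℝ) < (5 / 4 : ℝ) ^ J :=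
    pow_unbounded_of_one_lt _ (by norm_num)
  refine ⟨c + 1, J * (r * p * (10 * q * r + (q * r + 1) * (r * p))), ?_⟩
  intro A _ N σ h1 hσ B G hGm hGd hG hE ωS ωU ωV Z0 hB2 hZ0 z s hQ hz
  have hB1 : 1 ≤ B := by linarith
  have hZ02 : 2 ≤ Z0 := by
    refine le_trans ?_ hZ0
    calc (2 : ℝ) ≤ B := hB2
      _ = B ^ 1 := (pow_one _).symm
      _ ≤ _ := pow_le_pow_right₀ hB1 (by omega)
  have hZc : B ^ c ≤ Z0 := (pow_le_pow_right₀ hB1 (by omega)).trans hZ0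
  have hZ0p : 0 < Z0 := by linarith
  have hlog : 0 < Real.log Z0 := Real.log_pos (by linarith)
  obtain ⟨W, hW⟩ : ∃ W : ℕ → ℝ, W = fun j => Real.exp ((5 / 4 : ℝ) ^ j * Real.log Z0) := ⟨_, rfl⟩
  have hW0 : ∀ j, Z0 ≤ W j := by
    intro j
    rw [hW]
    calc Z0 = Real.exp (Real.log Z0) := (Real.exp_log hZ0p).symm
      _ ≤ _ := by
        apply Real.exp_le_exp.2
        exact le_mul_of_one_le_left hlog.le (one_le_pow₀ (by norm_num))
  have hcov : ∀ P ∈ s, ∃ j < J, W j ≤ z P ∧ z P ^ 4 ≤ W j ^ 5 := by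
    intro P hP
    obtain ⟨g1, g2⟩ := hz P hP
    have hzp : 0 < z P := by linarith
    obtain ⟨j, hj1, hj2⟩ := exists_nat_pow_near (x := Real.log (z P) / Real.log Z0)
      (y := (5 / 4 : ℝ)) (by rw [le_div_iff₀ hlog, one_mul]; exact Real.log_le_log hZ0p g1)
      (by norm_num)
    have hle : Real.log (z P) ≤ κ * Real.log Z0 := by
      have := Real.log_le_log hzp g2
      rwa [Real.log_pow] at this
    rw [le_div_iff₀ hlog] at hj1
    rw [div_lt_iff₀ hlog] at hj2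
    refine ⟨j, ?_, ?_, ?_⟩
    · by_contra hcon
      push Not at hcon
      have h3 : (5 / 4 : ℝ) ^ J ≤ (5 / 4 : ℝ) ^ j := pow_le_pow_right₀ (by norm_num) hcon
      have h4 : (5 / 4 : ℝ) ^ j * Real.log Z0 ≤ κ * Real.log Z0 := hj1.trans hle
      have h5 := le_of_mul_le_mul_right h4 hlog
      linarith
    · rw [hW]
      calc Real.exp ((5 / 4 : ℝ) ^ j * Real.log Z0) ≤ Real.exp (Real.log (z P)) :=
            Real.exp_le_exp.2 hj1
        _ = z P := Real.exp_log hzp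
    · have h3 : z P ^ 4 = Real.exp (4 * Real.log (z P)) := by
        have h4 := Real.exp_nat_mul (Real.log (z P)) 4
        push_cast at h4
        rw [h4, Real.exp_log hzp]
      have h5 : W j ^ 5 = Real.exp (5 * ((5 / 4 : ℝ) ^ j * Real.log Z0)) := by
        have h6 := Real.exp_nat_mul ((5 / 4 : ℝ) ^ j * Real.log Z0) 5
        push_cast at h6
        rw [h6, hW]
      rw [h3, h5]
      apply Real.exp_le_exp.2
      rw [pow_succ] at hj2
      linarith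
  classical
  obtain ⟨t, ht⟩ : ∃ t : ℕ → Finset (ℤ × ℤ), t = fun j =>
    s.filter (fun P => W j ≤ z P ∧ z P ^ 4 ≤ W j ^ 5) := ⟨_, rfl⟩
  have hsub : s.image Prod.fst ⊆ (Finset.range J).biUnion (fun j => (t j).image Prod.fst) := by
    intro a ha
    rw [Finset.mem_image] at ha
    obtain ⟨P, hP, rfl⟩ := ha
    obtain ⟨j, hj, g1, g2⟩ := hcov P hP
    rw [Finset.mem_biUnion]
    refine ⟨j, Finset.mem_range.2 hj, Finset.mem_image.2 ⟨P, ?_, rfl⟩⟩
    rw [ht]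
    exact Finset.mem_filter.2 ⟨hP, g1, g2⟩
  have hpart : ∀ j ∈ Finset.range J, ((t j).image Prod.fst).card
      ≤ r * p * (10 * q * r + (q * r + 1) * (r * p)) := by
    intro j _
    have hts : ∀ P ∈ t j, P ∈ s ∧ W j ≤ z P ∧ z P ^ 4 ≤ W j ^ 5 := by
      intro P hP
      rw [ht] at hP
      exact Finset.mem_filter.1 hP
    apply card_fst G (r * p) (q * r + 1) (10 * q * r) (Nat.mul_pos (by omega) hp) hGm hGd hG hE
      (t j)
    · intro P hP
      obtain ⟨Q, -⟩ := hQ P (hts P hP).1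
      exact Q.hev
    · intro f hf
      have hex : ∀ i, ∃ Q : BQ N σ p q (q * r + 1) B G (f i).1 (f i).2, Q.Z = z (f i) ∧
          Q.ωS = ωS ∧ Q.ωU = ωU ∧ Q.ωV = ωV := fun i => hQ (f i) (hts _ (hf i)).1
      choose Q hQ1 hQ2 using hex
      refine hc h1 hσ ωS ωU ωV (W j) (hZc.trans (hW0 j)) f Q hQ2 (fun i => ?_)
      rw [hQ1 i]
      exact (hts _ (hf i)).2
  calc (s.image Prod.fst).card
      ≤ ((Finset.range J).biUnion (fun j => (t j).image Prod.fst)).card := Finset.card_le_card hsub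
    _ ≤ (Finset.range J).card * (r * p * (10 * q * r + (q * r + 1) * (r * p))) :=
        Finset.card_biUnion_le_card_mul _ _ _ hpart
    _ = _ := by rw [Finset.card_range]

end Pool.Agent.Y910.E
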