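import Pool.Agent.Y910.E.E4
import Pool.Agent.Y910.E.E8
import Pool.Agent.Y910.A.A10

/-!
Large integer points on a weighted curve: bounded number.
-/

open Polynomial Finset NumberField IntermediateField

namespace Pool.Agent.Y910.E

open Pool.Agent.H322R2 Pool.Agent.Y910.S Pool.Agent.Y910.G Pool.Agent.Y910.A

theorem level_few (r N : ℕ) (hr : 1 ≤ r) (hN : 1 ≤ N) : ∃ e C : ℕ,
    ∀ G : ℤ[X][X], WN r N (N + 1) G → Prime G →
      Irreducible ((wl r N (N + 1) G).map (Int.castRingHom ℚ)) →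
      (wl r N (N + 1) G).coeff 0 ≠ 0 → ∀ H : ℝ, 1 ≤ H → pn (pn zn) G ≤ H →
      (∀ a b : ℤ, ev a b G = 0 → (2 + H) ^ e < |(a : ℝ)| →
        ∃ η : ℝ, evf η (wl r N (N + 1) G) = 0) ∧
      (3 ≤ r → ∀ s : Finset (ℤ × ℤ), (∀ P ∈ s, ev P.1 P.2 G = 0 ∧ (2 + H) ^ e < |(P.1 : ℝ)|) →
        (s.image Prod.fst).card ≤ C) := by
  obtain ⟨C1, C2, hC1, hBQ⟩ := exists_BQc r N (N + 1) hr hN (by omega)
    ((Nat.coprime_self_add_right).2 (Nat.coprime_one_right N))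
  obtain ⟨M2, hM2⟩ : ∃ M2, M2 = N + r + C1 + 1 := ⟨_, rfl⟩
  obtain ⟨K, hK⟩ := repel_near M2
  have hcc : ∃ c C : ℕ, 3 ≤ r → ∀ {A : Type} [CommRing A] {N' : RingSeminorm A} {σ : A →+* ℝ}
      (_ : N' 1 ≤ 1) (_ : ∀ x, |σ x| ≤ N' x) {B : ℝ} {G : ℤ[X][X]} (_ : G.Monic)
      (_ : G.natDegree = r * N) (_ : Prime G) (_ : ∀ j, (G.coeff j).natDegree ≤ (N + 1) * r + 1)
      (ωS ωU ωV : PowerSeries A)
      (Z0 : ℝ) (_ : 2 ≤ B) (_ : B ^ c ≤ Z0) (z : ℤ × ℤ → ℝ) (s : Finset (ℤ × ℤ))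
      (_ : ∀ P ∈ s, ∃ Q : BQ N' σ N (N + 1) ((N + 1) * r + 1) B G P.1 P.2, Q.Z = z P ∧
        Q.ωS = ωS ∧ Q.ωU = ωU ∧ Q.ωV = ωV)
      (_ : ∀ P ∈ s, Z0 ≤ z P ∧ z P ≤ Z0 ^ (2 * K)), (s.image Prod.fst).card ≤ C := by
    by_cases hr3 : 3 ≤ r
    · obtain ⟨c, C, h⟩ := class_card r N (N + 1) (2 * K) hr3 hN (by omega)
      exact ⟨c, C, fun _ => h⟩
    · exact ⟨0, 0, fun h => absurd h hr3⟩
  obtain ⟨c, C, hcc⟩ := hcc
  refine ⟨N * (C2 + C1 * c) + K + 1, r * C, ?_⟩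
  intro G hWN hGp hirr hg0 H hH hpG
  obtain ⟨hwm, hwd⟩ := wl_monic hWN
  have hn : nrm (wl r N (N + 1) G) r (derivative (wl r N (N + 1) G)) ≠ 0 := by
    apply nrm_ne_zero_of_coprime _ _ hwm hwd
    rw [← derivative_map]
    exact hirr.separable
  obtain ⟨Cl, hCl1, hCl2, hCl3⟩ := hBQ G hWN hGp hg0 hn H hH hpG
  have h2H : (1 : ℝ) ≤ 2 + H := by linarith
  -- sizes
  obtain ⟨z, hz⟩ : ∃ z : ℤ × ℤ → ℝ, z = fun P => |(P.1 : ℝ)| ^ ((N : ℝ)⁻¹) := ⟨_, rfl⟩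
  have hz0 : ∀ P, 0 ≤ z P := fun P => by rw [hz]; positivity
  have hzN : ∀ P, z P ^ N = |(P.1 : ℝ)| := by
    intro P
    rw [hz]
    simp only
    rw [← Real.rpow_natCast, ← Real.rpow_mul (abs_nonneg _), inv_mul_cancel₀ (by positivity),
      Real.rpow_one]
  have hzbig : ∀ P : ℤ × ℤ, (2 + H) ^ (N * (C2 + C1 * c) + K + 1) < |(P.1 : ℝ)| →
      (2 + H) ^ (C2 + C1 * c) ≤ z P := by
    intro P hP
    by_contra hcon
    push Not at hcon
    have h1 : |(P.1 : ℝ)| ≤ (2 + H) ^ (N * (C2 + C1 * c)) := by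
      rw [← hzN]
      calc z P ^ N ≤ ((2 + H) ^ (C2 + C1 * c)) ^ N := pow_le_pow_left₀ (hz0 P) hcon.le _
        _ = _ := by rw [← pow_mul, mul_comm]
    have h2 : (2 + H) ^ (N * (C2 + C1 * c)) ≤ (2 + H) ^ (N * (C2 + C1 * c) + K + 1) :=
      pow_le_pow_right₀ h2H (by omega)
    linarith
  have hroot : ∀ a b : ℤ, ev a b G = 0 → (2 + H) ^ (N * (C2 + C1 * c) + K + 1) < |(a : ℝ)| →
      ∃ η, Cl a b η := by
    intro a b hab ha
    apply hCl2 a b hab (z (a, b)) (hzN (a, b))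
    exact (pow_le_pow_right₀ h2H (by omega)).trans (hzbig (a, b) ha)
  refine ⟨fun a b hab ha => ?_, ?_⟩
  · obtain ⟨η, hη⟩ := hroot a b hab ha
    exact ⟨η, (hCl1 a b η hη).1⟩
  intro hr3 s hSs
  classical
  -- the classes
  have hex : ∀ P : ℤ × ℤ, ∃ η : ℝ, P ∈ s → Cl P.1 P.2 η := by
    intro P
    by_cases hP : P ∈ s
    · obtain ⟨η, hη⟩ := hroot P.1 P.2 (hSs P hP).1 (hSs P hP).2
      exact ⟨η, fun _ => hη⟩
    · exact ⟨0, fun h => absurd h hP⟩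
  choose rt hrt using hex
  obtain ⟨Rts, hRts⟩ : ∃ Rts : Finset ℝ,
    Rts = ((wl r N (N + 1) G).map (Int.castRingHom ℝ)).roots.toFinset := ⟨_, rfl⟩
  have hRcard : Rts.card ≤ r := by
    rw [hRts]
    refine (Multiset.toFinset_card_le _).trans ((card_roots' _).trans ?_)
    rw [hwm.natDegree_map, hwd]
  have hevm : ∀ η : ℝ, evf η (wl r N (N + 1) G)
      = ((wl r N (N + 1) G).map (Int.castRingHom ℝ)).eval η := by
    intro η
    rw [eval_map, evf, coe_eval₂RingHom]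
  have hmem : ∀ P ∈ s, rt P ∈ Rts := by
    intro P hP
    rw [hRts, Multiset.mem_toFinset, mem_roots (hwm.map _).ne_zero, IsRoot, ← hevm]
    exact (hCl1 _ _ _ (hrt P hP)).1
  -- one class
  have hclass : ∀ η ∈ Rts, ((s.filter (fun P => rt P = η)).image Prod.fst).card ≤ C := by
    intro η _
    rcases (s.filter (fun P => rt P = η)).eq_empty_or_nonempty with he | hne
    · rw [he, Finset.image_empty, Finset.card_empty]
      exact Nat.zero_le _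
    obtain ⟨P0, hP0, hmin⟩ := Finset.exists_min_image _ z hne
    have hfil : ∀ P ∈ s.filter (fun P => rt P = η), P ∈ s ∧ Cl P.1 P.2 η := by
      intro P hP
      rw [Finset.mem_filter] at hP
      exact ⟨hP.1, hP.2 ▸ hrt P hP.1⟩
    obtain ⟨hη0, hηH⟩ := hCl1 _ _ _ (hfil P0 hP0).2
    -- the field
    have hint : IsIntegral ℤ η := ⟨wl r N (N + 1) G, hwm, hη0⟩
    have hevf : ∀ p : ℤ[X], evf η p = aeval η p := by
      intro p
      rw [aeval_def, evf, coe_eval₂RingHom]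
      congr 1
    have hfin : Module.finrank ℚ ℚ⟮η⟯ = r := by
      rw [IntermediateField.adjoin.finrank (hint.tower_top)]
      have h1 : minpoly ℚ η = (wl r N (N + 1) G).map (Int.castRingHom ℚ) := by
        symm
        apply minpoly.eq_of_irreducible_of_monic hirr
        · have h2 := hevf (wl r N (N + 1) G)
          rw [hη0] at h2
          have h3 : aeval η ((wl r N (N + 1) G).map (algebraMap ℤ ℚ)) = aeval η (wl r N (N + 1) G) :=
            aeval_map_algebraMap ℚ η (wl r N (N + 1) G)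
          rw [← h2] at h3
          exact h3
        · exact hwm.map _
      rw [h1, hwm.natDegree_map, hwd]
    have hfd : FiniteDimensional ℚ ℚ⟮η⟯ :=
      IntermediateField.adjoin.finiteDimensional (hint.tower_top)
    haveI hnf : NumberField ℚ⟮η⟯ := { to_charZero := inferInstance, to_finiteDimensional := hfd }
    obtain ⟨x₀, hx₀⟩ : ∃ x₀ : ℚ⟮η⟯, algebraMap ℚ⟮η⟯ ℝ x₀ = η :=
      ⟨IntermediateField.AdjoinSimple.gen ℚ η, IntermediateField.AdjoinSimple.algebraMap_gen ℚ η⟩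
    have hx0 : evf x₀ (wl r N (N + 1) G) = 0 := by
      have h3 := map_evf (algebraMap ℚ⟮η⟯ ℝ) x₀ (wl r N (N + 1) G)
      rw [hx₀, hη0] at h3
      exact (algebraMap ℚ⟮η⟯ ℝ).injective (by rw [h3, map_zero])
    have hpg : pn zn (wl r N (N + 1) G) ≤ H := (pn_wl_le hN (by omega) hWN).trans hpG
    obtain ⟨α', hα1, hα2, hα3⟩ := exists_alpha ℚ⟮η⟯ (algebraMap ℚ⟮η⟯ ℝ) (wl r N (N + 1) G) hwm H hH
      hpg x₀ hx0
    rw [hx₀] at hα1
    obtain ⟨ωS, ωU, ωV, hω⟩ := hCl3 (hs ℚ⟮η⟯) (rE ℚ⟮η⟯ (algebraMap ℚ⟮η⟯ ℝ)) (hs_one _)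
      (abs_rE_le _ _) α' hα2 (by linarith)
    rw [hα1] at hω
    have hQ : ∀ P ∈ s.filter (fun P => rt P = η), ∃ Q : BQ (hs ℚ⟮η⟯) (rE ℚ⟮η⟯ (algebraMap ℚ⟮η⟯ ℝ))
        N (N + 1) ((N + 1) * r + 1) ((2 + H) ^ C1) G P.1 P.2, Q.Z = z P ∧ Q.ωS = ωS ∧
        Q.ωU = ωU ∧ Q.ωV = ωV := by
      intro P hP
      obtain ⟨h1, h2⟩ := hfil P hP
      exact hω P.1 P.2 (hSs P h1).1 (z P) (hzN P)
        ((pow_le_pow_right₀ h2H (by omega)).trans (hzbig P (hSs P h1).2)) h2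
    have hdegc : ∀ j, (G.coeff j).natDegree ≤ (N + 1) * r + 1 :=
      fun j => (natDegree_coeff_le hWN hN j).trans (by omega)
    have hnear : ∀ P ∈ s.filter (fun P => rt P = η), Near M2 (2 + H) |(P.1 : ℝ)| ℚ⟮η⟯ := by
      intro P hP
      obtain ⟨Q, -⟩ := hQ P hP
      have ha4 := Q.a_ge
      refine ⟨N, r, hN, hr, by omega, by omega, hnf, G, P.1, P.2, α', (2 + H) ^ C1, hfin,
        by rw [hα1], ?_, pow_le_pow_right₀ h2H (by omega), hWN.1, hWN.2.1, hGp, hdegc, ⟨Q⟩, ?_, ?_⟩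
      · calc hs ℚ⟮η⟯ α' ≤ 2 + H := by linarith
          _ = (2 + H) ^ 1 := (pow_one _).symm
          _ ≤ _ := pow_le_pow_right₀ h2H (by omega)
      · have h1 : 1 ≤ (2 + H) * |(P.1 : ℝ)| := one_le_mul_of_one_le_of_one_le h2H (by linarith)
        calc |(P.1 : ℝ)| ≤ (2 + H) * |(P.1 : ℝ)| := le_mul_of_one_le_left (abs_nonneg _) h2H
          _ ≤ _ := le_self_pow₀ h1 (by omega)
      · have h1 : 1 ≤ (2 + H) * |(P.1 : ℝ)| := one_le_mul_of_one_le_of_one_le h2H (by linarith)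
        calc |(P.1 : ℝ)| ≤ (2 + H) * |(P.1 : ℝ)| := le_mul_of_one_le_left (abs_nonneg _) h2H
          _ ≤ _ := le_self_pow₀ h1 (by omega)
    have hP0s := (hfil P0 hP0).1
    have hP0big : (2 + H) ^ K < |(P0.1 : ℝ)| :=
      lt_of_le_of_lt (pow_le_pow_right₀ h2H (by omega)) (hSs P0 hP0s).2
    have hP0big1 : 2 + H ≤ |(P0.1 : ℝ)| := by
      refine le_trans ?_ (hSs P0 hP0s).2.le
      calc 2 + H = (2 + H) ^ 1 := (pow_one _).symm
        _ ≤ _ := pow_le_pow_right₀ h2H (by omega)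
    have hB2 : (2 : ℝ) ≤ (2 + H) ^ C1 := by
      calc (2 : ℝ) ≤ (2 + H) ^ 1 := by rw [pow_one]; linarith
        _ ≤ _ := pow_le_pow_right₀ h2H hC1
    refine hcc hr3 (hs_one _) (abs_rE_le _ _) hWN.1 hWN.2.1 hGp hdegc ωS ωU ωV (z P0) hB2 ?_ z
      (s.filter (fun P => rt P = η)) hQ ?_
    · rw [← pow_mul]
      exact (pow_le_pow_right₀ h2H (by omega)).trans (hzbig P0 (hSs P0 hP0s).2)
    · intro P hP
      refine ⟨hmin P hP, ?_⟩
      have h1 := hK (by linarith) (by linarith) (hnear P0 hP0) hP0big (hnear P hP) (by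
        rw [sup_idem, hfin]
        exact Nat.mul_le_mul_right _ hr3)
      apply le_of_pow_le_pow_left₀ (n := N) (by omega) (pow_nonneg (hz0 P0) _)
      rw [hzN, ← pow_mul, mul_comm (2 * K) N, pow_mul, hzN]
      refine h1.trans ?_
      rw [pow_mul |(P0.1 : ℝ)| 2 K]
      apply pow_le_pow_left₀ (by positivity)
      rw [sq]
      exact mul_le_mul_of_nonneg_left hP0big1 (abs_nonneg _)
  have hsub : s.image Prod.fst
      ⊆ Rts.biUnion (fun η => (s.filter (fun P => rt P = η)).image Prod.fst) := by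
    intro a ha
    rw [Finset.mem_image] at ha
    obtain ⟨P, hP, rfl⟩ := ha
    rw [Finset.mem_biUnion]
    exact ⟨rt P, hmem P hP, Finset.mem_image.2 ⟨P, Finset.mem_filter.2 ⟨hP, rfl⟩, rfl⟩⟩
  calc (s.image Prod.fst).card
      ≤ (Rts.biUnion (fun η => (s.filter (fun P => rt P = η)).image Prod.fst)).card :=
        Finset.card_le_card hsub
    _ ≤ Rts.card * C := Finset.card_biUnion_le_card_mul _ _ _ hclass
    _ ≤ r * C := Nat.mul_le_mul_right _ hRcard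

end Pool.Agent.Y910.E
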