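import Pool.Agent.Y910.E.E2
import Pool.Agent.Y910.E.E9
import Pool.Agent.Y910.G.P4

/-!
Bounded number of large integer points on monic curves.
-/

open Polynomial Finset NumberField IntermediateField

namespace Pool.Agent.Y910.E

open Pool.Agent.H322R2 Pool.Agent.Y910.S Pool.Agent.Y910.G Pool.Agent.Y910.A

theorem monic_few (d : ℕ) (hd : 1 ≤ d) : ∃ M C : ℕ,
    ∀ (T : ℕ) (_ : 2 ≤ T) (F : ℤ[X][X]), F.Monic → F.natDegree = d → Prime F →
    (∀ j, (F.coeff j).natDegree ≤ d) → pn (pn zn) F ≤ T →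
    ∀ (L : Type) [Field L] [Algebra ℚ L] (α β : L), ev α β F = 0 → Transcendental ℚ α →
    (∀ z : L, ∃ w1 ∈ Algebra.adjoin ℚ {α, β}, ∃ w2 ∈ Algebra.adjoin ℚ {α, β},
      w2 ≠ 0 ∧ w2 * z = w1) →
    (∀ s : Finset (ℤ × ℤ), (∀ P ∈ s, ev P.1 P.2 F = 0 ∧ (T : ℤ) ^ M < |P.1|) → s.card ≤ C) ∨
      ∃ A : ValuationSubring L, (∀ A' : ValuationSubring L,
        ((∀ q : ℚ, algebraMap ℚ L q ∈ A') ∧ ¬ (α ∈ A' ∧ β ∈ A')) ↔ A' = A) ∧
        ∃ g : ℚ[X], g.Monic ∧ Irreducible g ∧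
          Nonempty (IsLocalRing.ResidueField A ≃+* AdjoinRoot g) ∧ g.natDegree ≤ 2 ∧
          ∃ η : ℝ, aeval η g = 0 := by
  obtain ⟨M0, hM0⟩ := softA d hd
  obtain ⟨M1, hM1⟩ := int_modelA M0
  -- constants for all levels
  have hlev : ∀ N r : ℕ, ∃ e C : ℕ, 1 ≤ N → 1 ≤ r →
    ∀ G : ℤ[X][X], WN r N (N + 1) G → Prime G →
      Irreducible ((wl r N (N + 1) G).map (Int.castRingHom ℚ)) →
      (wl r N (N + 1) G).coeff 0 ≠ 0 → ∀ H : ℝ, 1 ≤ H → pn (pn zn) G ≤ H →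
      (∀ a b : ℤ, ev a b G = 0 → (2 + H) ^ e < |(a : ℝ)| →
        ∃ η : ℝ, evf η (wl r N (N + 1) G) = 0) ∧
      (3 ≤ r → ∀ s : Finset (ℤ × ℤ), (∀ P ∈ s, ev P.1 P.2 G = 0 ∧ (2 + H) ^ e < |(P.1 : ℝ)|) →
        (s.image Prod.fst).card ≤ C) := by
    intro N r
    by_cases h : 1 ≤ N ∧ 1 ≤ r
    · obtain ⟨e, C, h3⟩ := level_few r N h.2 h.1
      exact ⟨e, C, fun _ _ => h3⟩
    · exact ⟨0, 0, fun h1 h2 => absurd ⟨h1, h2⟩ h⟩
  choose e C hC using hlev
  obtain ⟨em, hem⟩ : ∃ em, em = ∑ N ∈ range (M0 + 1), ∑ r ∈ range (M0 + 1), (e N r + C N r) :=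
    ⟨_, rfl⟩
  have hele : ∀ N r, N ≤ M0 → r ≤ M0 → e N r + C N r ≤ em := by
    intro N r hN hr
    rw [hem]
    refine le_trans ?_ (Finset.single_le_sum
      (f := fun N => ∑ r ∈ range (M0 + 1), (e N r + C N r))
      (fun _ _ => Nat.zero_le _) (Finset.mem_range.2 (by omega : N < M0 + 1)))
    exact Finset.single_le_sum (f := fun r => e N r + C N r) (fun _ _ => Nat.zero_le _)
      (Finset.mem_range.2 (by omega : r < M0 + 1))
  refine ⟨M0 + ((M1 + 2) * em + 2) * M1, M0 * em, ?_⟩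
  intro T hT F hm hdeg hp hdeg2 hpn L _ _ α β hF hα hgen
  have hT1 : 1 ≤ T := by omega
  have hTZ : (1 : ℤ) ≤ T := by exact_mod_cast hT1
  have hTR : (1 : ℝ) ≤ T := by exact_mod_cast hT1
  have hT2R : (2 : ℝ) ≤ T := by exact_mod_cast hT
  rcases hM0 T hT F hm hdeg hp hdeg2 hpn with h | h
  · left
    intro s hs
    have : s = ∅ := by
      rw [Finset.eq_empty_iff_forall_notMem]
      intro P hP
      obtain ⟨h1, h2⟩ := hs P hP
      have h3 := h P.1 P.2 h1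
      have h4 : (T : ℤ) ^ M0 ≤ (T : ℤ) ^ (M0 + ((M1 + 2) * em + 2) * M1) :=
        pow_le_pow_right₀ hTZ (by omega)
      omega
    rw [this, Finset.card_empty]
    exact Nat.zero_le _
  obtain ⟨N, r, cc', g, Φ, Ψ, hmod, hNM, hrM, G, s, a, b, hs0, hWN, hwl, hpG, hpt, hmul⟩ :=
    hM1 T hT F h
  have hirr : Irreducible ((wl r N (N + 1) G).map (Int.castRingHom ℚ)) := by
    rw [hwl]; exact irr_scale hmod.hgi s hs0
  have hg0 : (wl r N (N + 1) G).coeff 0 ≠ 0 := by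
    intro h0
    have h1 := congrArg (fun p : ℚ[X] => p.coeff 0) hwl
    simp only [coeff_map, h0, map_zero, coeff_scaleRoots] at h1
    rcases mul_eq_zero.1 h1.symm with h2 | h2
    · exact hmod.hg0 h2
    · exact pow_ne_zero _ hs0 h2
  obtain ⟨hwm, hwd⟩ := wl_monic hWN
  have hGp : Prime G := Y660.SG.edge_prime r N (N + 1) hmod.hr hmod.hN (by omega)
    ((Nat.coprime_self_add_right).2 (Nat.coprime_one_right N)) G hWN.1 hWN.2.1 hWN.2.2
    (wl r N (N + 1) G) hwm hwd (fun l hl => wl_coeff l hl) hg0 hirr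
  obtain ⟨H, hHd⟩ : ∃ H : ℝ, H = (T : ℝ) ^ M1 := ⟨_, rfl⟩
  have hH : 1 ≤ H := by rw [hHd]; exact one_le_pow₀ hTR
  rw [← hHd] at hpG
  have h2T : 2 + H ≤ (T : ℝ) ^ (M1 + 2) := by
    rw [pow_add, sq, ← hHd]
    nlinarith [mul_self_nonneg ((T : ℝ) - 2)]
  have h2H : (1 : ℝ) ≤ 2 + H := by linarith
  have heNr := hele N r hNM hrM
  obtain ⟨hres1, hres2⟩ := hC N r hmod.hN hmod.hr G hWN hGp hirr hg0 H hH hpG
  -- large points have large new coordinates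
  have hbig : ∀ P : ℤ × ℤ, ev P.1 P.2 F = 0 →
      (T : ℤ) ^ (M0 + ((M1 + 2) * em + 2) * M1) < |P.1| →
      (2 + H) ^ (e N r) < |((a P.1 P.2 : ℤ) : ℝ)| := by
    intro P hP1 hP2
    by_contra hcon
    push Not at hcon
    obtain ⟨-, h1, -⟩ := hpt P.1 P.2 hP1
    have h1' : |(P.1 : ℝ)| ≤ ((T : ℝ) * (1 + |((a P.1 P.2 : ℤ) : ℝ)|)) ^ M1 := by
      have h2 : ((|(P.1 : ℚ)| : ℚ) : ℝ) ≤ ((((T : ℚ) * (1 + |((a P.1 P.2 : ℤ) : ℚ)|)) ^ M1 : ℚ) : ℝ) := by
        exact_mod_cast h1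
      push_cast at h2
      exact h2
    have h3 : |((a P.1 P.2 : ℤ) : ℝ)| ≤ (T : ℝ) ^ ((M1 + 2) * em) := by
      refine hcon.trans ?_
      calc (2 + H) ^ (e N r) ≤ ((T : ℝ) ^ (M1 + 2)) ^ (e N r) :=
            pow_le_pow_left₀ (by linarith) h2T _
        _ = (T : ℝ) ^ ((M1 + 2) * e N r) := by rw [← pow_mul]
        _ ≤ _ := pow_le_pow_right₀ hTR (Nat.mul_le_mul_left _ (by omega))
    have h4 : (T : ℝ) * (1 + |((a P.1 P.2 : ℤ) : ℝ)|) ≤ (T : ℝ) ^ ((M1 + 2) * em + 2) := by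
      have h5 : (1 : ℝ) ≤ (T : ℝ) ^ ((M1 + 2) * em) := one_le_pow₀ hTR
      calc (T : ℝ) * (1 + |((a P.1 P.2 : ℤ) : ℝ)|) ≤ T * (T * (T : ℝ) ^ ((M1 + 2) * em)) := by
            apply mul_le_mul_of_nonneg_left _ (by linarith)
            nlinarith
        _ = _ := by rw [pow_add]; ring
    have h6 : |(P.1 : ℝ)| ≤ (T : ℝ) ^ (M0 + ((M1 + 2) * em + 2) * M1) := by
      refine h1'.trans ?_
      calc ((T : ℝ) * (1 + |((a P.1 P.2 : ℤ) : ℝ)|)) ^ M1
          ≤ ((T : ℝ) ^ ((M1 + 2) * em + 2)) ^ M1 := pow_le_pow_left₀ (by positivity) h4 _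
        _ = (T : ℝ) ^ (((M1 + 2) * em + 2) * M1) := by rw [← pow_mul]
        _ ≤ _ := pow_le_pow_right₀ hTR (by omega)
    have h7 : |P.1| ≤ (T : ℤ) ^ (M0 + ((M1 + 2) * em + 2) * M1) := by exact_mod_cast h6
    omega
  rcases Nat.lt_or_ge 2 r with hr3 | hr2
  · left
    intro S hS
    classical
    have h1 : ∀ u ∈ S.image (fun P => a P.1 P.2), (S.filter (fun P => a P.1 P.2 = u)).card
        ≤ M0 := by
      intro u _
      apply hmul
      intro P hP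
      rw [Finset.mem_filter] at hP
      exact ⟨(hS P hP.1).1, hP.2⟩
    have h2 := Finset.card_le_mul_card_image (s := S) (f := fun P => a P.1 P.2) M0 h1
    refine h2.trans ?_
    apply Nat.mul_le_mul_left
    have h3 := hres2 hr3 (S.image (fun P => (a P.1 P.2, b P.1 P.2))) (by
      intro P' hP'
      rw [Finset.mem_image] at hP'
      obtain ⟨P, hP, rfl⟩ := hP'
      exact ⟨(hpt P.1 P.2 (hS P hP).1).1, hbig P (hS P hP).1 (hS P hP).2⟩)
    rw [Finset.image_image] at h3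
    have h4 : S.image (fun P => a P.1 P.2)
        = S.image (Prod.fst ∘ fun P => (a P.1 P.2, b P.1 P.2)) := rfl
    rw [h4]
    exact h3.trans (by omega)
  · by_cases hex : ∃ P : ℤ × ℤ, ev P.1 P.2 F = 0 ∧
      (T : ℤ) ^ (M0 + ((M1 + 2) * em + 2) * M1) < |P.1|
    · obtain ⟨P, hP1, hP2⟩ := hex
      right
      obtain ⟨η, hη0⟩ := hres1 _ _ (hpt P.1 P.2 hP1).1 (hbig P hP1 hP2)
      obtain ⟨A, hA1, hA2⟩ := place hmod α β hF hα hgen
      have hsR : (s : ℝ) ≠ 0 := by exact_mod_cast hs0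
      refine ⟨A, hA1, g, hmod.hgm, hmod.hgi, hA2, by rw [hmod.hgr]; exact hr2, η / s, ?_⟩
      have h2 : aeval η (scaleRoots g s) = 0 := by
        rw [← hwl]
        have h3 : aeval η ((wl r N (N + 1) G).map (algebraMap ℤ ℚ)) = aeval η (wl r N (N + 1) G) :=
          aeval_map_algebraMap ℚ η (wl r N (N + 1) G)
        have h4 : aeval η (wl r N (N + 1) G) = 0 := by
          rw [aeval_def, ← hη0, evf, coe_eval₂RingHom]
          congr 1
        exact h3.trans h4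
      have h5 := scaleRoots_eval₂_mul (p := g) (f := algebraMap ℚ ℝ) (r := η / s) (s := s)
      have h6 : (algebraMap ℚ ℝ) s * (η / s) = η := by
        show (s : ℝ) * (η / s) = η
        field_simp
      rw [h6] at h5
      rw [aeval_def] at h2
      rw [h2] at h5
      rcases mul_eq_zero.1 h5.symm with h7 | h7
      · exfalso
        exact pow_ne_zero _ hsR h7
      · rw [aeval_def]; exact h7
    · left
      intro S hS
      have : S = ∅ := by
        rw [Finset.eq_empty_iff_forall_notMem]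
        intro P hP
        exact hex ⟨P, hS P hP⟩
      rw [this, Finset.card_empty]
      exact Nat.zero_le _

end Pool.Agent.Y910.E
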