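import Pool.Agent.Y910.E.E10
import Pool.Agent.Y910.A.A11

/-!
Bounded number of large integer points on all plane curves.
-/

open Polynomial Finset NumberField IntermediateField

namespace Pool.Agent.Y910.E

open Pool.Agent.H322R2 Pool.Agent.Y910.S Pool.Agent.Y910.G Pool.Agent.Y910.A

theorem curve_few (d : ℕ) : ∃ C N : ℕ, ∀ F : MvPolynomial (Fin 2) ℤ, F.totalDegree = d →
    Irreducible (MvPolynomial.map (Int.castRingHom ℚ) F) →
    ∀ (L : Type) [Field L] [Algebra ℚ L] (π : MvPolynomial (Fin 2) ℚ →ₐ[ℚ] L),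
    (∀ w, π w = 0 ↔ MvPolynomial.map (Int.castRingHom ℚ) F ∣ w) →
    (∀ z : L, ∃ w1 w2, π w2 ≠ 0 ∧ π w2 * z = π w1) →
      (∀ s : Finset (ℤ × ℤ), (∀ P ∈ s, MvPolynomial.eval ![P.1, P.2] F = 0 ∧
        (C * len F) ^ C < max P.1.natAbs P.2.natAbs) → s.card ≤ N) ∨
      ∃ g : ℚ[X], OnePlace π g ∧ g.natDegree ≤ 2 ∧ ∃ η : ℝ, aeval η g = 0 := by
  by_cases hd : 1 ≤ d
  swap
  · refine ⟨2, 0, fun F hF hirr => ?_⟩
    have := totalDegree_pos F hirr
    omega
  obtain ⟨M, N, hM⟩ := monic_few d hd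
  obtain ⟨K, hK⟩ : ∃ K, K = (d + 1) * (2 * (1 + d) ^ d) := ⟨_, rfl⟩
  have hK2 : 2 * (d + 1) ≤ K := by
    rw [hK]
    have : 1 ≤ (1 + d) ^ d := Nat.one_le_pow _ _ (by omega)
    calc 2 * (d + 1) = (d + 1) * (2 * 1) := by ring
      _ ≤ _ := Nat.mul_le_mul_left _ (Nat.mul_le_mul_left _ this)
  obtain ⟨C, hC⟩ : ∃ C, C = K + (d * (M + 1) + 1) := ⟨_, rfl⟩
  have hKC : K ≤ C := by omega
  refine ⟨C, N, ?_⟩
  intro F hFd hirr L _ _ π hker hsurj
  have hF0 : F ≠ 0 := by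
    rintro rfl
    rw [map_zero] at hirr
    exact hirr.ne_zero rfl
  obtain ⟨u, hu, hcu⟩ := exists_u F hF0
  have hcl : lc F u ≠ 0 := hcu
  have hFd1 : 1 ≤ F.totalDegree := by omega
  have hlen1 : 1 ≤ len F := len_pos hF0
  have hlenR : (1 : ℝ) ≤ len F := by exact_mod_cast hlen1
  obtain ⟨T, hT⟩ : ∃ T : ℕ, T = 2 * (len F * (1 + d) ^ d) ^ d := ⟨_, rfl⟩
  have hBpos : 1 ≤ len F * (1 + d) ^ d := Nat.mul_pos hlen1 (by positivity)
  have hT2 : 2 ≤ T := by
    rw [hT]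
    have := Nat.one_le_pow d _ hBpos
    omega
  -- the monic model
  have hpn2 : pn (pn zn) (F2 F u) ≤ (len F : ℝ) * (1 + d) ^ d := by
    refine (pn_toB_le u F).trans ?_
    rw [hFd]
    apply mul_le_mul_of_nonneg_left _ (by linarith)
    apply pow_le_pow_left₀ (by positivity)
    have : (u : ℝ) ≤ d := by rw [← hFd]; exact_mod_cast hu
    linarith
  have hB1 : (1 : ℝ) ≤ (len F : ℝ) * (1 + d) ^ d := by exact_mod_cast hBpos
  have hpnG' : pn (pn zn) (GG F u) ≤ ((len F : ℝ) * (1 + d) ^ d) ^ d := by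
    rw [← hFd]
    rw [← hFd] at hpn2 hB1
    exact pn_GG hcl hB1 hpn2 hFd1
  have hpnG : pn (pn zn) (GG F u) ≤ T := by
    refine hpnG'.trans ?_
    rw [hT]
    push_cast
    have : 0 ≤ ((len F : ℝ) * (1 + d) ^ d) ^ d := by positivity
    linarith
  obtain ⟨hev, htr, hgen, hpl⟩ := Y852.FFRed.ff_reduce F hirr u hcl hFd1 π hker hsurj _ _ rfl rfl
  have hTR : (1 : ℝ) ≤ T := by exact_mod_cast (by omega : 1 ≤ T)
  have hlc1 : 1 ≤ |((lc F u : ℤ) : ℝ)| := by
    have : 1 ≤ |lc F u| := Int.one_le_abs hcl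
    exact_mod_cast this
  -- `T` and `len F`
  obtain ⟨l, hl⟩ : ∃ l : ℝ, l = ((C * len F : ℕ) : ℝ) := ⟨_, rfl⟩
  have hlK : ((K * 1 * len F : ℕ) : ℝ) ≤ l := by
    rw [hl, mul_one]
    exact_mod_cast Nat.mul_le_mul_right _ hKC
  have hld : (d : ℝ) + 1 ≤ l ∧ 2 ≤ l := by
    have h1 : 2 * (d + 1) ≤ C * len F := by
      calc 2 * (d + 1) ≤ C := by omega
        _ ≤ C * len F := Nat.le_mul_of_pos_right _ (by omega)
    have h2 : 2 * ((d : ℝ) + 1) ≤ l := by rw [hl]; exact_mod_cast h1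
    have h3 : (0 : ℝ) ≤ d := by positivity
    constructor <;> linarith
  obtain ⟨hld1, hl2⟩ := hld
  have hl1 : 1 ≤ l := by linarith
  have hTl : (T : ℝ) ≤ l ^ d := by
    have h2 : T ≤ (K * 1 * len F) ^ d := by
      rw [hT, hK]
      calc 2 * (len F * (1 + d) ^ d) ^ d ≤ 2 ^ d * (len F * (1 + d) ^ d) ^ d :=
            Nat.mul_le_mul_right _ (Nat.le_self_pow (by omega) _)
        _ = (2 * (len F * (1 + d) ^ d)) ^ d := by rw [mul_pow 2]
        _ ≤ ((d + 1) * (2 * (1 + d) ^ d) * 1 * len F) ^ d := by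
            apply Nat.pow_le_pow_left
            calc 2 * (len F * (1 + d) ^ d) = 1 * (2 * (1 + d) ^ d) * 1 * len F := by ring
              _ ≤ _ := by
                apply Nat.mul_le_mul_right
                apply Nat.mul_le_mul_right
                exact Nat.mul_le_mul_right _ (by omega)
    calc (T : ℝ) ≤ ((K * 1 * len F : ℕ) : ℝ) ^ d := by exact_mod_cast h2
      _ ≤ l ^ d := pow_le_pow_left₀ (by positivity) hlK _
  have huR : (u : ℝ) ≤ d := by rw [← hFd]; exact_mod_cast hu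
  have hd0 : (0 : ℝ) ≤ d := by positivity
  have hzero : ∀ x y : ℤ, MvPolynomial.eval ![x, y] F = 0 →
      ev (y - u * x) (lc F u * x) (GG F u) = 0 := by
    intro x y hxy
    rw [ev_GG hcl hFd1]
    have h1 := ev_toB (S := ℤ) x (y - u * x) (shE ℤ u F)
    have h2 : MvPolynomial.eval₂ (Int.castRingHom ℤ) ![x, y - u * x] (shE ℤ u F)
        = MvPolynomial.eval ![x, y - u * x] (shE ℤ u F) := by
      rw [MvPolynomial.eval, MvPolynomial.coe_eval₂Hom]
      congr 1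
    rw [h2, eval_shE] at h1
    have h3 : (![(![x, y - u * x] : Fin 2 → ℤ) 0, (![x, y - u * x] : Fin 2 → ℤ) 1
        + u * (![x, y - u * x] : Fin 2 → ℤ) 0] : Fin 2 → ℤ) = ![x, y] := by
      ext i
      fin_cases i
      · simp
      · simp
    rw [h3, hxy] at h1
    rw [F2, h1, mul_zero]
  have hlarge : ∀ x y : ℤ, MvPolynomial.eval ![x, y] F = 0 →
      (C * len F) ^ C < max x.natAbs y.natAbs → (T : ℤ) ^ M < |y - u * x| := by
    intro x y hxy hbig
    by_contra hcon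
    push Not at hcon
    have h1 : |((y - u * x : ℤ) : ℝ)| ≤ (T : ℝ) ^ M := by exact_mod_cast hcon
    have hbb := abs_b_le (GG_monic hcl) (GG_natDegree hcl) (GG_TD hcl) hTR hpnG (y - u * x)
      (lc F u * x) (hzero x y hxy)
    have hxb : |(x : ℝ)| ≤ T * max 1 |((y - u * x : ℤ) : ℝ)| := by
      refine le_trans ?_ hbb
      push_cast
      rw [abs_mul]
      exact le_mul_of_one_le_left (abs_nonneg _) hlc1
    have hW : (1 : ℝ) ≤ (T : ℝ) ^ M := one_le_pow₀ hTR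
    have hmax : max 1 |((y - u * x : ℤ) : ℝ)| ≤ (T : ℝ) ^ M := max_le hW h1
    have hx : |(x : ℝ)| ≤ T * (T : ℝ) ^ M :=
      hxb.trans (mul_le_mul_of_nonneg_left hmax (by linarith))
    have hTW : 0 ≤ (T : ℝ) * (T : ℝ) ^ M := by positivity
    have hy : |(y : ℝ)| ≤ (d + 1) * (T * (T : ℝ) ^ M) := by
      have h2 : (y : ℝ) = ((y - u * x : ℤ) : ℝ) + u * x := by push_cast; ring
      rw [h2]
      refine (abs_add_le _ _).trans ?_
      rw [abs_mul, Nat.abs_cast]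
      have h3 : (u : ℝ) * |(x : ℝ)| ≤ d * (T * (T : ℝ) ^ M) :=
        mul_le_mul huR hx (abs_nonneg _) (by positivity)
      have h4 : (T : ℝ) ^ M ≤ T * (T : ℝ) ^ M := le_mul_of_one_le_left (by linarith) hTR
      linarith
    have hx2 : |(x : ℝ)| ≤ (d + 1) * (T * (T : ℝ) ^ M) := by
      refine hx.trans ?_
      apply le_mul_of_one_le_left hTW
      linarith
    have h5 : ((d : ℝ) + 1) * (T * (T : ℝ) ^ M) ≤ l ^ C := by
      calc ((d : ℝ) + 1) * (T * (T : ℝ) ^ M) = (d + 1) * (T : ℝ) ^ (M + 1) := by ring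
        _ ≤ l * (l ^ d) ^ (M + 1) := by gcongr
        _ = l ^ (d * (M + 1) + 1) := by rw [← pow_mul, pow_succ l (d * (M + 1))]; ring
        _ ≤ l ^ C := pow_le_pow_right₀ hl1 (by omega)
    have h6 : ((max x.natAbs y.natAbs : ℕ) : ℝ) ≤ (((C * len F) ^ C : ℕ) : ℝ) := by
      rw [Nat.cast_pow, ← hl]
      push_cast
      rw [Nat.cast_natAbs, Nat.cast_natAbs]
      push_cast
      exact max_le (hx2.trans h5) (hy.trans h5)
    have h7 : max x.natAbs y.natAbs ≤ (C * len F) ^ C := by exact_mod_cast h6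
    omega
  have hGTD := GG_TD hcl
  rcases hM T hT2 (GG F u) (GG_monic hcl) (by rw [GG_natDegree hcl, hFd]) (GG_prime hcl hFd1 hirr)
    (fun j => by rw [← hFd]; exact (hGTD.2 j).trans (Nat.sub_le _ _)) hpnG L _ _ hev htr hgen
    with h | ⟨A, hA, g, hgm, hgi, hres, hg2, η, hη⟩
  · left
    intro s hs
    have hinj : Function.Injective (fun P : ℤ × ℤ => (P.2 - u * P.1, lc F u * P.1)) := by
      rintro ⟨x, y⟩ ⟨x', y'⟩ hPP
      simp only [Prod.mk.injEq] at hPP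
      obtain ⟨h1, h2⟩ := hPP
      have h3 : x = x' := mul_left_cancel₀ hcl h2
      subst h3
      have h4 : y = y' := by linarith
      rw [h4]
    rw [← Finset.card_image_of_injective s hinj]
    apply h
    intro P' hP'
    rw [Finset.mem_image] at hP'
    obtain ⟨P, hP, rfl⟩ := hP'
    exact ⟨hzero _ _ (hs P hP).1, hlarge _ _ (hs P hP).1 (hs P hP).2⟩
  · right
    refine ⟨g, ⟨A, ?_, hgm, hgi, hres⟩, hg2, η, hη⟩
    intro A'
    rw [← hA A']
    apply and_congr_right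
    intro hQ
    exact not_congr (hpl A' hQ)

theorem curves_few (d : ℕ) : ∃ C N : ℕ, ∀ F : MvPolynomial (Fin 2) ℤ, F.totalDegree ≤ d →
    Irreducible (MvPolynomial.map (Int.castRingHom ℚ) F) →
    ∀ (L : Type) [Field L] [Algebra ℚ L] (π : MvPolynomial (Fin 2) ℚ →ₐ[ℚ] L),
    (∀ w, π w = 0 ↔ MvPolynomial.map (Int.castRingHom ℚ) F ∣ w) →
    (∀ z : L, ∃ w1 w2, π w2 ≠ 0 ∧ π w2 * z = π w1) →
      (∀ s : Finset (ℤ × ℤ), (∀ P ∈ s, MvPolynomial.eval ![P.1, P.2] F = 0 ∧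
        (C * len F) ^ C < max P.1.natAbs P.2.natAbs) → s.card ≤ N) ∨
      ∃ g : ℚ[X], OnePlace π g ∧ g.natDegree ≤ 2 ∧ ∃ η : ℝ, aeval η g = 0 := by
  choose C N hC using curve_few
  obtain ⟨D, hD⟩ : ∃ D, D = 1 + ∑ i ∈ range (d + 1), (C i + N i) := ⟨_, rfl⟩
  have hle : ∀ i, i ≤ d → C i + N i ≤ D := by
    intro i hi
    have h1 := Finset.single_le_sum (f := fun i => C i + N i) (fun _ _ => Nat.zero_le _)
      (Finset.mem_range.2 (by omega : i < d + 1))
    omega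
  refine ⟨D, D, ?_⟩
  intro F hFd hirr L _ _ π hker hsurj
  have hF0 : F ≠ 0 := by
    rintro rfl
    rw [map_zero] at hirr
    exact hirr.ne_zero rfl
  have hlen1 : 1 ≤ len F := len_pos hF0
  have hCD := hle F.totalDegree hFd
  rcases hC F.totalDegree F rfl hirr L π hker hsurj with h | h
  · left
    intro s hs
    refine (h s fun P hP => ⟨(hs P hP).1, lt_of_le_of_lt ?_ (hs P hP).2⟩).trans (by omega)
    have hD1 : 1 ≤ D * len F := Nat.mul_pos (by omega) hlen1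
    exact (Nat.pow_le_pow_left (Nat.mul_le_mul_right _ (by omega)) _).trans
      (Nat.pow_le_pow_right hD1 (by omega))
  · exact Or.inr h

end Pool.Agent.Y910.E
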