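import Pool.Agent.Y910.E.E1
import Pool.Agent.Y910.G.P3

/-!
The integral weighted model for all integer points of a curve.
-/

open Polynomial Finset

namespace Pool.Agent.Y910.E

open Pool.Agent.H322R2 Pool.Agent.Y910.S Pool.Agent.Y910.G Pool.Agent.Y910.A

theorem int_modelA (M : ℕ) : ∃ M' : ℕ, ∀ (T : ℕ) (_ : 2 ≤ T) (F : ℤ[X][X]), GoodA M T F →
    ∃ (N r : ℕ) (c : ℕ → ℕ → ℚ) (g : ℚ[X]) (Φ Ψ : ℚ[X][X]), Mod F N r c g Φ Ψ ∧ N ≤ M ∧ r ≤ M ∧
      ∃ (G : ℤ[X][X]) (s : ℚ) (a b : ℤ → ℤ → ℤ), s ≠ 0 ∧ WN r N (N + 1) G ∧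
        (wl r N (N + 1) G).map (Int.castRingHom ℚ) = scaleRoots g s ∧
        pn (pn zn) G ≤ (T : ℝ) ^ M' ∧ (∀ x y, ev x y F = 0 → ev (a x y) (b x y) G = 0 ∧
          |(x : ℚ)| ≤ ((T : ℚ) * (1 + |(a x y : ℚ)|)) ^ M' ∧
          |(a x y : ℚ)| ≤ ((T : ℚ) * (1 + |(x : ℚ)| + |(y : ℚ)|)) ^ M') ∧
        (∀ (S : Finset (ℤ × ℤ)) (u : ℤ), (∀ p ∈ S, ev p.1 p.2 F = 0 ∧ a p.1 p.2 = u) →
          S.card ≤ M) := by
  obtain ⟨e1, he1⟩ : ∃ e1, e1 = M + M * (((M + 1) * M + 1) * (M * M)) := ⟨_, rfl⟩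
  refine ⟨(1 + M * M) + (((M + 1) * M + 1) + (e1 * ((M + 2) * (M * M)) + M)) + (e1 * M + M), ?_⟩
  intro T hT F hgood
  obtain ⟨N, r, c, g, Φ, Ψ, hM, hNM, hrM, hht, ⟨D, hD0, hD, hDz⟩, hxu, hup, hcard⟩ := hgood
  refine ⟨N, r, c, g, Φ, Ψ, hM, hNM, hrM, ?_⟩
  have hT1 : 1 ≤ T := by omega
  have hTR : (1 : ℝ) ≤ T := by exact_mod_cast hT1
  have hrel : ∀ x y : ℤ, ev x y F = 0 → (va Ψ x y) ^ (N * r) + ∑ j ∈ range (N * r),
      ∑ i ∈ range ((N + 1) * r + 1), c i j * (va Φ x y) ^ i * (va Ψ x y) ^ j = 0 := by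
    intro x y hxy
    obtain ⟨q, hq⟩ := hM.hG
    have h1 := congrArg (e2 (RingHom.id ℚ) (x : ℚ) (y : ℚ)) hq
    rw [map_mul, e2_id_qz, hxy, Int.cast_zero, zero_mul] at h1
    simp only [map_add, map_pow, map_sum, map_mul, e2_CC, RingHom.id_apply] at h1
    exact h1
  choose A B hB0 hB hA hAB using hht
  obtain ⟨E, hE⟩ : ∃ E : ℕ, E = D * ∏ i ∈ range ((N + 1) * r + 1), ∏ j ∈ range (N * r), B i j :=
    ⟨_, rfl⟩
  have hE0 : 0 < E := by
    rw [hE]
    exact Nat.mul_pos hD0 (Finset.prod_pos fun i _ => Finset.prod_pos fun j _ => hB0 i j)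
  have hEq : (E : ℚ) ≠ 0 := by positivity
  have hEle : E ≤ T ^ e1 := by
    have h1 : ∏ i ∈ range ((N + 1) * r + 1), ∏ j ∈ range (N * r), B i j
        ≤ (T ^ M) ^ (((M + 1) * M + 1) * (M * M)) := by
      have h2 : ∀ i ∈ range ((N + 1) * r + 1), ∏ j ∈ range (N * r), B i j ≤ (T ^ M) ^ (M * M) := by
        intro i _
        calc ∏ j ∈ range (N * r), B i j ≤ ∏ j ∈ range (N * r), T ^ M :=
              Finset.prod_le_prod' fun j _ => hB i j
          _ = (T ^ M) ^ (N * r) := by rw [Finset.prod_const, Finset.card_range]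
          _ ≤ _ := Nat.pow_le_pow_right (Nat.one_le_pow _ _ hT1) (Nat.mul_le_mul hNM hrM)
      calc _ ≤ ∏ i ∈ range ((N + 1) * r + 1), (T ^ M) ^ (M * M) := Finset.prod_le_prod' h2
        _ = ((T ^ M) ^ (M * M)) ^ ((N + 1) * r + 1) := by rw [Finset.prod_const, Finset.card_range]
        _ = (T ^ M) ^ ((M * M) * ((N + 1) * r + 1)) := by rw [← pow_mul (T ^ M)]
        _ ≤ _ := by
          apply Nat.pow_le_pow_right (Nat.one_le_pow _ _ hT1)
          rw [mul_comm]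
          apply Nat.mul_le_mul_right
          have := Nat.mul_le_mul (Nat.add_le_add_right hNM 1) hrM
          omega
    calc E ≤ T ^ M * (T ^ M) ^ (((M + 1) * M + 1) * (M * M)) := by
          rw [hE]; exact Nat.mul_le_mul hD h1
      _ = T ^ e1 := by rw [← pow_mul, ← pow_add, he1]
  -- integrality of `E c_ij`
  have hEc : ∀ i j, i < (N + 1) * r + 1 → j < N * r → ∃ t : ℤ, (t : ℚ) = E * c i j := by
    intro i j hi hj
    have h1 : B i j ∣ E := by
      rw [hE]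
      apply Dvd.dvd.mul_left
      exact (Finset.dvd_prod_of_mem (B i) (Finset.mem_range.2 hj)).trans
        (Finset.dvd_prod_of_mem (fun i => ∏ j ∈ range (N * r), B i j) (Finset.mem_range.2 hi))
    obtain ⟨k, hk⟩ := h1
    refine ⟨k * A i j, ?_⟩
    have hBq : (B i j : ℚ) ≠ 0 := by
      have := hB0 i j
      positivity
    rw [hAB i j, hk]
    push_cast
    field_simp
  have hcle : ∀ i j, |c i j| ≤ (T : ℚ) ^ M := by
    intro i j
    have h1 : Ht (T ^ M) (c i j) := ⟨A i j, B i j, hB0 i j, hB i j, hA i j, hAB i j⟩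
    have := h1.abs_le
    push_cast at this
    exact this
  -- the integral coefficients
  have hz : ∀ i j, ∃ z : ℤ, (i < (N + 1) * r + 1 → j < N * r →
      (z : ℚ) * (E : ℚ) ^ (N * i) = (E : ℚ) ^ ((N + 2) * (N * r - j)) * c i j) ∧
      |(z : ℚ)| ≤ (E : ℚ) ^ ((M + 2) * (M * M)) * (T : ℚ) ^ M ∧ (c i j = 0 → z = 0) := by
    intro i j
    have hE1 : (1 : ℚ) ≤ E := by exact_mod_cast hE0
    have hTq : (1 : ℚ) ≤ T := by exact_mod_cast hT1
    by_cases h0 : c i j = 0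
    · refine ⟨0, fun _ _ => by rw [h0]; simp, ?_, fun _ => rfl⟩
      simp only [Int.cast_zero, abs_zero]
      positivity
    · obtain ⟨hj, hij⟩ := hM.hc i j h0
      have hexp := expo hj hij
      have hi : i < (N + 1) * r + 1 := by
        by_contra hcon
        have h4 : (N + 1) * r + 1 ≤ i := by omega
        have h5 : N * ((N + 1) * r + 1) ≤ N * i := Nat.mul_le_mul_left _ h4
        have h6 : N * ((N + 1) * r + 1) = N * (N + 1) * r + N := by ring
        have := hM.hN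
        omega
      obtain ⟨t, ht⟩ := hEc i j hi hj
      obtain ⟨k, hk⟩ : ∃ k, (N + 2) * (N * r - j) = N * i + 1 + k := ⟨_, (Nat.add_sub_of_le hexp).symm⟩
      have hval : (((E : ℤ) ^ k * t : ℤ) : ℚ) = (E : ℚ) ^ (k + 1) * c i j := by
        push_cast
        rw [ht]; ring
      refine ⟨(E : ℤ) ^ k * t, fun _ _ => ?_, ?_, fun h => absurd h h0⟩
      · rw [hval, hk]; ring
      · rw [hval, abs_mul, abs_of_nonneg (by positivity : (0 : ℚ) ≤ (E : ℚ) ^ (k + 1))]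
        apply mul_le_mul _ (hcle i j) (abs_nonneg _) (by positivity)
        apply pow_le_pow_right₀ hE1
        have h7 : (N + 2) * (N * r - j) ≤ (M + 2) * (M * M) :=
          Nat.mul_le_mul (by omega) ((Nat.sub_le _ _).trans (Nat.mul_le_mul hNM hrM))
        omega
  choose z hz1' hz2' hz3' using hz
  have haex : ∀ x y : ℤ, ∃ a : ℤ, (a : ℚ) = (E : ℚ) ^ N * va Φ x y := by
    intro x y
    obtain ⟨⟨z1, hz1⟩, -⟩ := hDz x y
    obtain ⟨k, hk⟩ : ∃ k, N = k + 1 := ⟨N - 1, by have := hM.hN; omega⟩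
    obtain ⟨P, hP⟩ : ∃ P : ℕ, E = D * P := ⟨_, hE⟩
    refine ⟨(E : ℤ) ^ k * (P * z1), ?_⟩
    rw [hk]
    push_cast
    rw [← hz1, pow_succ]
    have : (E : ℚ) = D * P := by rw [hP]; push_cast; ring
    rw [this]; ring
  have hbex : ∀ x y : ℤ, ∃ b : ℤ, (b : ℚ) = (E : ℚ) ^ (N + 2) * va Ψ x y := by
    intro x y
    obtain ⟨-, ⟨z2, hz2⟩⟩ := hDz x y
    obtain ⟨P, hP⟩ : ∃ P : ℕ, E = D * P := ⟨_, hE⟩
    refine ⟨(E : ℤ) ^ (N + 1) * (P * z2), ?_⟩
    push_cast
    rw [← hz2, pow_succ (E : ℚ) (N + 1)]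
    have : (E : ℚ) = D * P := by rw [hP]; push_cast; ring
    rw [this]; ring
  choose a ha using haex
  choose b hb using hbex
  refine ⟨mkG N r z, (E : ℚ) ^ N, a, b, pow_ne_zero _ hEq, ⟨mkG_monic N r z,
    by rw [mkG_natDegree, mul_comm], ?_⟩, ?_, ?_, fun x y hxy => ⟨?_, ?_, ?_⟩, ?_⟩
  · intro i j hij
    rcases lt_trichotomy j (N * r) with hj | hj | hj
    · rw [mkG_coeff_coeff N r z i j hj] at hij
      split_ifs at hij with hi
      · have hc0 : c i j ≠ 0 := fun h => hij (hz3' i j h)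
        exact (hM.hc i j hc0).2
      · exact absurd rfl hij
    · rw [hj, mkG_coeff_top, coeff_one] at hij
      have hi : i = 0 := by
        by_contra h
        rw [if_neg h] at hij
        exact hij rfl
      rw [hi, hj, mul_zero, zero_add]
      apply le_of_eq; ring
    · rw [coeff_eq_zero_of_natDegree_lt (p := mkG N r z) (by rw [mkG_natDegree]; exact hj),
        coeff_zero] at hij
      exact absurd rfl hij
  · ext l
    rw [coeff_map, coeff_scaleRoots, hM.hgr]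
    by_cases hl : l ≤ r
    · rw [wl_coeff l hl]
      rcases Nat.lt_or_ge l r with hlr | hlr
      · have hj : N * l < N * r := Nat.mul_lt_mul_of_pos_left hlr hM.hN
        rw [mkG_coeff_coeff N r z _ _ hj, if_pos (by
          have : (N + 1) * (r - l) ≤ (N + 1) * r := Nat.mul_le_mul_left _ (Nat.sub_le _ _)
          omega), hM.hgc l hlr]
        have h1 := hz1' ((N + 1) * (r - l)) (N * l) (by
          have : (N + 1) * (r - l) ≤ (N + 1) * r := Nat.mul_le_mul_left _ (Nat.sub_le _ _)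
          omega) hj
        obtain ⟨k, hk⟩ : ∃ k, r = l + k := ⟨r - l, by omega⟩
        have hk2 : r - l = k := by omega
        have hexp : (N + 2) * (N * r - N * l) = N * ((N + 1) * (r - l)) + N * k := by
          rw [← Nat.mul_sub, hk2]; ring
        rw [hexp, pow_add, mul_assoc, mul_comm] at h1
        have h2 := mul_left_cancel₀ (pow_ne_zero _ hEq) h1
        rw [eq_intCast, h2, hk2, ← pow_mul]; ring
      · have hlr' : l = r := by omega
        subst hlr'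
        rw [mkG_coeff_top, Nat.sub_self, mul_zero, coeff_one_zero, map_one, pow_zero, mul_one,
          ← hM.hgr]
        exact hM.hgm.symm
    · rw [coeff_eq_zero_of_natDegree_lt (p := g) (by rw [hM.hgr]; omega), zero_mul,
        coeff_eq_zero_of_natDegree_lt (lt_of_le_of_lt wl_natDegree_le (by omega)), map_zero]
  · have hbd : ∀ i j, |((z i j : ℤ) : ℝ)| ≤ (T : ℝ) ^ (e1 * ((M + 2) * (M * M)) + M) := by
      intro i j
      have h1 : |(z i j : ℚ)| ≤ (T : ℚ) ^ (e1 * ((M + 2) * (M * M)) + M) := by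
        refine (hz2' i j).trans ?_
        rw [pow_add, pow_mul (T : ℚ) e1]
        apply mul_le_mul_of_nonneg_right _ (by positivity)
        apply pow_le_pow_left₀ (by positivity)
        exact_mod_cast hEle
      exact_mod_cast h1
    refine (pn_mkG N r z _ hbd).trans ?_
    obtain ⟨Y, hY⟩ : ∃ Y, Y = (T : ℝ) ^ (e1 * ((M + 2) * (M * M)) + M) := ⟨_, rfl⟩
    rw [← hY]
    have hY1 : 1 ≤ Y := by rw [hY]; exact one_le_pow₀ hTR
    have hT2 : (2 : ℝ) ≤ T := by exact_mod_cast hT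
    have hpow : ∀ n : ℕ, (n : ℝ) ≤ (T : ℝ) ^ n := by
      intro n
      calc (n : ℝ) ≤ 2 ^ n := by exact_mod_cast Nat.lt_two_pow_self.le
        _ ≤ _ := pow_le_pow_left₀ (by norm_num) hT2 n
    have hNr : ((N * r : ℕ) : ℝ) ≤ (T : ℝ) ^ (M * M) := by
      refine (hpow _).trans (pow_le_pow_right₀ hTR (Nat.mul_le_mul hNM hrM))
    have hNr2 : (((N + 1) * r + 1 : ℕ) : ℝ) ≤ (T : ℝ) ^ ((M + 1) * M + 1) := by
      refine (hpow _).trans (pow_le_pow_right₀ hTR ?_)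
      have := Nat.mul_le_mul (Nat.add_le_add_right hNM 1) hrM
      omega
    have h3 : ((N * r : ℕ) : ℝ) * (((N + 1) * r + 1 : ℕ) * Y)
        ≤ (T : ℝ) ^ (M * M) * ((T : ℝ) ^ ((M + 1) * M + 1) * Y) := by
      have : 0 ≤ Y := by linarith
      gcongr
    have h4 : 1 ≤ (T : ℝ) ^ (M * M) * ((T : ℝ) ^ ((M + 1) * M + 1) * Y) :=
      one_le_mul_of_one_le_of_one_le (one_le_pow₀ hTR)
        (one_le_mul_of_one_le_of_one_le (one_le_pow₀ hTR) hY1)
    calc 1 + ((N * r : ℕ) : ℝ) * (((N + 1) * r + 1 : ℕ) * Y)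
        ≤ 2 * ((T : ℝ) ^ (M * M) * ((T : ℝ) ^ ((M + 1) * M + 1) * Y)) := by linarith
      _ ≤ T * ((T : ℝ) ^ (M * M) * ((T : ℝ) ^ ((M + 1) * M + 1) * Y)) := by
          apply mul_le_mul_of_nonneg_right hT2 (by linarith)
      _ = (T : ℝ) ^ ((1 + M * M) + (((M + 1) * M + 1) + (e1 * ((M + 2) * (M * M)) + M))) := by
          rw [hY]; ring
      _ ≤ _ := pow_le_pow_right₀ hTR (by omega)
  · obtain ⟨u, hu⟩ : ∃ u, u = va Φ x y := ⟨_, rfl⟩
    obtain ⟨v, hv⟩ : ∃ v, v = va Ψ x y := ⟨_, rfl⟩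
    have hrel' := hrel x y hxy
    have ha' := ha x y
    have hb' := hb x y
    rw [← hu, ← hv] at hrel'
    rw [← hu] at ha'
    rw [← hv] at hb'
    have h1 : ((ev (a x y) (b x y) (mkG N r z) : ℤ) : ℚ) = 0 := by
      have h2 := map_ev (Int.castRingHom ℚ) (a x y) (b x y) (mkG N r z)
      simp only [eq_intCast] at h2
      rw [h2, ev_mkG, ha', hb']
      have h3 : ∀ j ∈ range (N * r), ∑ i ∈ range ((N + 1) * r + 1), (z i j : ℚ) *
          ((E : ℚ) ^ N * u) ^ i * ((E : ℚ) ^ (N + 2) * v) ^ j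
          = (E : ℚ) ^ ((N + 2) * (N * r)) * ∑ i ∈ range ((N + 1) * r + 1),
            c i j * u ^ i * v ^ j := by
        intro j hj
        rw [Finset.mem_range] at hj
        rw [Finset.mul_sum]
        apply Finset.sum_congr rfl
        intro i hi
        rw [Finset.mem_range] at hi
        have h4 := hz1' i j hi hj
        have h5 : (E : ℚ) ^ ((N + 2) * (N * r))
            = (E : ℚ) ^ ((N + 2) * (N * r - j)) * (E : ℚ) ^ ((N + 2) * j) := by
          rw [← pow_add, ← mul_add]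
          congr 2
          omega
        rw [mul_pow, mul_pow, ← pow_mul, ← pow_mul, h5]
        calc (z i j : ℚ) * ((E : ℚ) ^ (N * i) * u ^ i) * ((E : ℚ) ^ ((N + 2) * j) * v ^ j)
            = ((z i j : ℚ) * (E : ℚ) ^ (N * i)) * (E : ℚ) ^ ((N + 2) * j) * u ^ i * v ^ j := by ring
          _ = _ := by rw [h4]; ring
      rw [Finset.sum_congr rfl h3, ← Finset.mul_sum, mul_pow, ← pow_mul, ← mul_add, hrel', mul_zero]
    exact_mod_cast h1
  · have hTq : (1 : ℚ) ≤ T := by exact_mod_cast hT1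
    have hva := abs_nonneg (va Φ x y)
    have h1 : |va Φ x y| ≤ |(a x y : ℚ)| := by
      rw [ha, abs_mul, abs_of_nonneg (by positivity : (0 : ℚ) ≤ (E : ℚ) ^ N)]
      apply le_mul_of_one_le_left (abs_nonneg _)
      apply one_le_pow₀
      exact_mod_cast hE0
    refine (hxu x y hxy).trans ?_
    calc ((T : ℚ) * (1 + |va Φ x y|)) ^ M ≤ ((T : ℚ) * (1 + |(a x y : ℚ)|)) ^ M := by
          apply pow_le_pow_left₀ (by positivity)
          apply mul_le_mul_of_nonneg_left _ (by positivity)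
          linarith
      _ ≤ _ := by
          apply pow_le_pow_right₀ _ (by omega)
          exact one_le_mul_of_one_le_of_one_le hTq (by linarith)
  · have hE1 : (1 : ℚ) ≤ E := by exact_mod_cast hE0
    have hTq : (1 : ℚ) ≤ T := by exact_mod_cast hT1
    have hup' := hup x y
    obtain ⟨Y, hY⟩ : ∃ Y, Y = (T : ℚ) * (1 + |(x : ℚ)| + |(y : ℚ)|) := ⟨_, rfl⟩
    have hx0 := abs_nonneg (x : ℚ)
    have hy0 := abs_nonneg (y : ℚ)
    have hYT : (T : ℚ) ≤ Y := by rw [hY]; nlinarith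
    have hY1 : 1 ≤ Y := by linarith
    rw [← hY] at hup' ⊢
    have h2 : ((E : ℚ)) ^ N ≤ Y ^ (e1 * M) := by
      have h3 : (E : ℚ) ≤ (T : ℚ) ^ e1 := by exact_mod_cast hEle
      calc (E : ℚ) ^ N ≤ ((T : ℚ) ^ e1) ^ N := pow_le_pow_left₀ (by linarith) h3 _
        _ = (T : ℚ) ^ (e1 * N) := by rw [← pow_mul]
        _ ≤ Y ^ (e1 * N) := pow_le_pow_left₀ (by linarith) hYT _
        _ ≤ Y ^ (e1 * M) := pow_le_pow_right₀ hY1 (Nat.mul_le_mul_left _ hNM)
    rw [ha, abs_mul, abs_of_nonneg (by positivity : (0 : ℚ) ≤ (E : ℚ) ^ N)]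
    calc (E : ℚ) ^ N * |va Φ x y| ≤ Y ^ (e1 * M) * Y ^ M :=
          mul_le_mul h2 hup' (abs_nonneg _) (by positivity)
      _ = Y ^ (e1 * M + M) := by rw [← pow_add]
      _ ≤ _ := pow_le_pow_right₀ hY1 (by omega)
  · intro S u hS
    apply hcard S ((u : ℚ) / (E : ℚ) ^ N)
    intro p hp
    obtain ⟨h1, h2⟩ := hS p hp
    refine ⟨h1, ?_⟩
    rw [eq_div_iff (pow_ne_zero _ hEq), mul_comm, ← ha, h2]

end Pool.Agent.Y910.E
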