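import Pool.Agent.Y910.E.E3

/-!
Canonical branch data at all large integer points.
-/

open Polynomial Finset

namespace Pool.Agent.Y910.E

open Pool.Agent.H322R2 Pool.Agent.Y910.S

theorem exists_BQc (r p q : ℕ) (hr : 1 ≤ r) (hp : 1 ≤ p) (hq : 1 ≤ q) (hpq : Nat.Coprime p q) :
    ∃ C1 C2 : ℕ, 1 ≤ C1 ∧ ∀ G : ℤ[X][X], WN r p q G → Prime G → (wl r p q G).coeff 0 ≠ 0 →
      nrm (wl r p q G) r (derivative (wl r p q G)) ≠ 0 → ∀ H : ℝ, 1 ≤ H → pn (pn zn) G ≤ H →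
      ∃ Cl : ℤ → ℤ → ℝ → Prop, (∀ a b η, Cl a b η → evf η (wl r p q G) = 0 ∧ |η| ≤ H) ∧
        (∀ a b : ℤ, ev a b G = 0 → ∀ Z : ℝ, Z ^ p = |(a : ℝ)| → (2 + H) ^ C2 ≤ Z →
          ∃ η, Cl a b η) ∧
        ∀ {A : Type} [CommRing A] (N : RingSeminorm A) (σ : A →+* ℝ), N 1 ≤ 1 →
          (∀ x, |σ x| ≤ N x) → ∀ τ : A, evf τ (wl r p q G) = 0 → N τ ≤ 1 + H →
          ∃ ωS ωU ωV : PowerSeries A, ∀ a b : ℤ, ev a b G = 0 → ∀ Z : ℝ, Z ^ p = |(a : ℝ)| →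
            (2 + H) ^ C2 ≤ Z → Cl a b (σ τ) →
            ∃ Q : BQ N σ p q (q * r + 1) ((2 + H) ^ C1) G a b,
              Q.Z = Z ∧ Q.ωS = ωS ∧ Q.ωU = ωU ∧ Q.ωV = ωV := by
  -- Bezout exponents
  obtain ⟨α, β, hαβ⟩ := exists_bez p q hp hq hpq
  obtain ⟨C1, hC1⟩ := (PB_BB r p q α β).le
  obtain ⟨c3, hc3⟩ := (PB_thr r p q α β).le
  obtain ⟨c4, hc4⟩ := (((PB.const 8 (by norm_num)).mul ((PB_TT r p q α β).pow 2)).mul
    ((PB_dd r q α).pow 2) |>.mul (PB.id.pow α)).le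
  obtain ⟨c5, hc5⟩ := ((PB.const ((r * p).factorial : ℝ) (by positivity)).mul
    ((((PB.const ((r * p : ℕ) : ℝ) (by positivity)).mul PB.id).mul
      (PB.one_add.pow (r * p))).pow (r * p))).le
  obtain ⟨c6, hc6⟩ := (((PB.const ((r * p : ℕ) : ℝ) (by positivity)).mul PB.id).mul
    (PB.id.pow (r * p))).le
  refine ⟨C1 + 1, 2 * (C1 + 1) + c3 + c4 + (c5 + 1) + c6, by omega, ?_⟩
  intro G hG hprime hg0 hn H hH hGH
  have h2H : (1 : ℝ) < 2 + H := by linarith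
  have hpw : ∀ m n : ℕ, m ≤ n → (2 + H : ℝ) ^ m ≤ (2 + H) ^ n := fun m n h =>
    pow_le_pow_right₀ h2H.le h
  obtain ⟨hgm, hgd⟩ := wl_monic hG
  have hpg : pn zn (wl r p q G) ≤ H := (pn_wl_le hp hq hG).trans hGH
  have hT1 : 2 ≤ TT r p q α β H := by
    have h1 := nd_le_TT (q := q) (α := α) (β := β) hr hp hH
    have h2 := one_le_nd' (q := q) (α := α) hr hp hH
    linarith
  have hd1 := one_le_dd (q := q) (α := α) hr hH
  have hR := cR_pos hr hH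
  have hR2 := cR_le hr hH
  obtain ⟨W, hW⟩ : ∃ W, W = H ^ (r + 1) * (2 * TT r p q α β H * dd r q α H) := ⟨_, rfl⟩
  have hW1 : 1 ≤ W := by
    rw [hW]
    exact one_le_mul_of_one_le_of_one_le (one_le_pow₀ hH)
      (one_le_mul_of_one_le_of_one_le (by linarith) hd1)
  have hW0 : 0 < W := by linarith
  obtain ⟨ρ, hρ⟩ : ∃ ρ, ρ = H322R2.cR r H / W := ⟨_, rfl⟩
  have hρ0 : 0 < ρ := by rw [hρ]; positivity
  have hρR : ρ ≤ H322R2.cR r H := by rw [hρ]; exact div_le_self hR.le hW1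
  refine ⟨fun a b η => evf η (wl r p q G) = 0 ∧ |η| ≤ H ∧
    1 ≤ |evf η (derivative (wl r p q G))| * H322R2.cD r H ∧ |(b : ℝ) ^ p / (a : ℝ) ^ q - η| ≤ ρ,
    fun a b η h => ⟨h.1, h.2.1⟩, ?_, ?_⟩
  · intro a b hab Z hZ hZbig
    have hZ1 : 1 ≤ Z := (one_le_pow₀ h2H.le).trans hZbig
    have hsm := wl_small hG hp hq hpq hr hH hGH a b hab Z hZ1 hZ
    have hZ0 : 0 < Z := by linarith
    have hsmall : |evf ((b : ℝ) ^ p / (a : ℝ) ^ q) (wl r p q G)| ≤ (ρ / 2) ^ r := by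
      have h1 : |evf ((b : ℝ) ^ p / (a : ℝ) ^ q) (wl r p q G)| ≤ H * H ^ (r * p) / Z := by
        rw [le_div_iff₀ hZ0]; exact hsm
      refine h1.trans ?_
      rw [div_le_iff₀ hZ0]
      have h2 : thr r p q α β H ≤ Z := (hc3 H hH).trans ((hpw _ _ (by omega)).trans hZbig)
      have h3 : H * H ^ (r * p) = (ρ / 2) ^ r * thr r p q α β H := by
        unfold thr
        rw [← hW, hρ]
        have e1 : (H322R2.cR r H / W / 2) ^ r * (H * H ^ (r * p) *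
            (2 * (W * (1 / H322R2.cR r H))) ^ r) = (H * H ^ (r * p)) *
            ((H322R2.cR r H / W / 2) * (2 * (W * (1 / H322R2.cR r H)))) ^ r := by
          rw [mul_pow (H322R2.cR r H / W / 2)]; ring
        rw [e1]
        have e2 : (H322R2.cR r H / W / 2) * (2 * (W * (1 / H322R2.cR r H))) = 1 := by
          field_simp
        rw [e2, one_pow, mul_one]
      rw [h3]
      exact mul_le_mul_of_nonneg_left h2 (by positivity)
    obtain ⟨η, hη0, hη1, hη2, hη3⟩ := real_root_near (wl r p q G) r hr hgm hgd hn hH hpg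
      ((b : ℝ) ^ p / (a : ℝ) ^ q) ρ hρ0 hρR hsmall
    exact ⟨η, hη0, hη3, hη2, hη1⟩
  · intro A _ N σ h1 hσ τ hτ hNτ
    obtain ⟨ωS, ωU, ωV, h⟩ := mkBQc h1 hσ hr hp hq hpq hαβ hG hprime hH hGH τ hτ hNτ hg0
      ((2 + H) ^ (C1 + 1)) ((hC1 H hH).trans (hpw _ _ (by omega)))
    refine ⟨ωS, ωU, ωV, ?_⟩
    rintro a b hab Z hZ hZbig ⟨-, hη3, hη2, hη1⟩
    have hZ1 : 1 ≤ Z := (one_le_pow₀ h2H.le).trans hZbig
    refine h hη3 hη2 a b hab Z hZ1 hZ ρ hη1 ?_ ?_ ?_ ?_ ?_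
    · rw [← hW, hρ, div_mul_cancel₀ _ hW0.ne']
      linarith
    · rw [← pow_mul]
      exact (hpw _ _ (by omega)).trans hZbig
    · exact (hc4 H hH).trans ((hpw _ _ (by omega)).trans hZbig)
    · refine lt_of_le_of_lt (hc5 H hH)
        (lt_of_lt_of_le ?_ ((hpw (c5 + 1) _ (by omega)).trans hZbig))
      exact pow_lt_pow_right₀ h2H (by omega)
    · exact (hc6 H hH).trans ((hpw _ _ (by omega)).trans hZbig)

end Pool.Agent.Y910.E
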