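import Mathlib

/-!
Interpolation determinants: bound of the determinant of the values of `n` analytic functions at
`n` points.
-/

open Finset

namespace Pool.Agent.Y910.E

lemma sum_ge (s : Finset ℕ) : s.card * (s.card - 1) ≤ 2 * ∑ x ∈ s, x := by
  induction hn : s.card generalizing s with
  | zero => simp
  | succ n ih =>
    have hne : s.Nonempty := by rw [← card_pos]; omega
    obtain ⟨m, hm, hmax⟩ : ∃ m ∈ s, ∀ x ∈ s, x ≤ m := ⟨s.max' hne, s.max'_mem hne, fun x hx =>
      s.le_max' x hx⟩
    have h1 := ih (s.erase m) (by rw [card_erase_of_mem hm]; omega)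
    have h2 : ∑ x ∈ s, x = ∑ x ∈ s.erase m, x + m := (sum_erase_add s _ hm).symm
    have h3 : n ≤ m := by
      have h4 : s ⊆ range (m + 1) := fun x hx => by
        rw [mem_range]; have := hmax x hx; omega
      have h5 := card_le_card h4
      rw [card_range] at h5
      omega
    have h6 : (n + 1) * (n + 1 - 1) = n * (n - 1) + 2 * n := by
      rcases n with _ | n
      · simp
      · simp; ring
    omega

lemma sum_inj {n : ℕ} (f : Fin n → ℕ) (hf : Function.Injective f) :
    n * (n - 1) / 2 ≤ ∑ j, f j := by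
  have h1 := sum_ge (univ.image f)
  rw [card_image_of_injective _ hf, card_univ, Fintype.card_fin, sum_image (fun x _ y _ h => hf h)]
    at h1
  omega

lemma det_le_prod {n : ℕ} (M : Matrix (Fin n) (Fin n) ℝ) (b : Fin n → ℝ)
    (hM : ∀ i j, |M i j| ≤ b i) : |M.det| ≤ n.factorial * ∏ i, b i := by
  rw [← Matrix.det_transpose, Matrix.det_apply]
  refine (abs_sum_le_sum_abs _ _).trans ?_
  have h1 : ∀ σ ∈ (univ : Finset (Equiv.Perm (Fin n))),
      |Equiv.Perm.sign σ • ∏ i, M.transpose (σ i) i| ≤ ∏ i, b i := by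
    intro σ _
    rw [Units.smul_def, zsmul_eq_mul, abs_mul]
    have h2 : |(((Equiv.Perm.sign σ : ℤˣ) : ℤ) : ℝ)| = 1 := by
      rcases Int.units_eq_one_or (Equiv.Perm.sign σ) with h | h <;> rw [h] <;> simp
    rw [h2, one_mul, abs_prod]
    apply prod_le_prod (fun i _ => abs_nonneg _)
    intro i _
    rw [Matrix.transpose_apply]
    exact hM i (σ i)
  refine (sum_le_sum h1).trans ?_
  rw [sum_const, card_univ, Fintype.card_perm, Fintype.card_fin, nsmul_eq_mul]

theorem det_bound (n L : ℕ) (hL : L = n * (n - 1) / 2) (c : Fin n → ℕ → ℝ) (t : Fin n → ℝ)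
    (R : Fin n → Fin n → ℝ) (K ρ : ℝ) (hK : 1 ≤ K) (hρ0 : 0 ≤ ρ) (hρ1 : ρ ≤ 1)
    (hc : ∀ j, ∀ l < L, ∀ i, |c j l * t i ^ l| ≤ K * ρ ^ l)
    (hR : ∀ i j, |R i j| ≤ K * ρ ^ L) :
    |(Matrix.of fun i j => ∑ l ∈ range L, c j l * t i ^ l + R i j).det| ≤
      (L + 1) ^ n * (n.factorial * (K ^ n * ρ ^ L)) := by
  obtain ⟨w, hw⟩ : ∃ w : Fin n → Fin (L + 1) → (Fin n → ℝ),
      w = fun (j : Fin n) (l : Fin (L + 1)) (i : Fin n) =>
        if (l : ℕ) < L then c j (l : ℕ) * t i ^ (l : ℕ) else R i j := ⟨_, rfl⟩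
  have hrow : ∀ j : Fin n, (fun i => ∑ l ∈ range L, c j l * t i ^ l + R i j)
      = ∑ l, w j l := by
    intro j
    funext i
    rw [Fin.sum_univ_castSucc, Pi.add_apply, Finset.sum_apply, hw]
    simp only [Fin.val_castSucc, Fin.is_lt, if_true, Fin.val_last, lt_irrefl, if_false]
    rw [Fin.sum_univ_eq_sum_range (fun l => c j l * t i ^ l)]
  have hexp : (Matrix.of fun i j => ∑ l ∈ range L, c j l * t i ^ l + R i j).det
      = ∑ f : Fin n → Fin (L + 1), Matrix.det (Matrix.of fun j => w j (f j)) := by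
    rw [← Matrix.det_transpose]
    have h1 : (Matrix.of fun i j => ∑ l ∈ range L, c j l * t i ^ l + R i j).transpose
        = Matrix.of (fun j => ∑ l, w j l) := by
      ext j i
      rw [Matrix.transpose_apply, Matrix.of_apply, Matrix.of_apply, ← hrow j]
    rw [h1]
    have h2 := MultilinearMap.map_sum (Matrix.detRowAlternating (R := ℝ) (n := Fin n)).toMultilinearMap
      (fun (j : Fin n) (l : Fin (L + 1)) => w j l)
    exact h2
  have hent : ∀ (f : Fin n → Fin (L + 1)) j i, |w j (f j) i| ≤ K * ρ ^ (f j : ℕ) := by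
    intro f j i
    rw [hw]
    simp only
    split_ifs with h
    · exact hc j _ h i
    · have : (f j : ℕ) = L := by have := (f j).2; omega
      rw [this]
      exact hR i j
  have hterm : ∀ f : Fin n → Fin (L + 1), |Matrix.det (Matrix.of fun j => w j (f j))|
      ≤ n.factorial * (K ^ n * ρ ^ L) := by
    intro f
    have hgen : L ≤ ∑ j, (f j : ℕ) → |Matrix.det (Matrix.of fun j => w j (f j))|
        ≤ n.factorial * (K ^ n * ρ ^ L) := by
      intro hs
      refine (det_le_prod _ (fun j => K * ρ ^ (f j : ℕ)) (fun j i => hent f j i)).trans ?_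
      apply mul_le_mul_of_nonneg_left _ (by positivity)
      rw [prod_mul_distrib, prod_const, card_univ, Fintype.card_fin, prod_pow_eq_pow_sum]
      apply mul_le_mul_of_nonneg_left _ (by positivity)
      exact pow_le_pow_of_le_one hρ0 hρ1 hs
    by_cases h1 : ∃ j, (f j : ℕ) = L
    · obtain ⟨j, hj⟩ := h1
      apply hgen
      refine hj.symm.le.trans ?_
      exact single_le_sum (f := fun j => (f j : ℕ)) (fun _ _ => Nat.zero_le _) (mem_univ j)
    push Not at h1
    have h2 : ∀ j, (f j : ℕ) < L := fun j => by have := (f j).2; have := h1 j; omega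
    by_cases h3 : Function.Injective f
    · apply hgen
      refine hL.le.trans ?_
      exact sum_inj (fun j => (f j : ℕ)) (fun x y h => h3 (Fin.ext h))
    · have h4 : Matrix.det (Matrix.of fun j => w j (f j)) = 0 := by
        rw [Function.Injective] at h3
        push Not at h3
        obtain ⟨j, j', hf, hne⟩ := h3
        have h5 : (Matrix.of fun j => w j (f j)) = Matrix.of fun (j i : Fin n) =>
            c j (f j) * (Matrix.of fun (j i : Fin n) => t i ^ (f j : ℕ)) j i := by
          ext j i
          rw [Matrix.of_apply, Matrix.of_apply, Matrix.of_apply, hw]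
          simp only
          rw [if_pos (h2 j)]
        rw [h5, Matrix.det_mul_column, Matrix.det_zero_of_row_eq hne, mul_zero]
        funext i
        rw [Matrix.of_apply, Matrix.of_apply, hf]
      rw [h4, abs_zero]
      positivity
  rw [hexp]
  refine (abs_sum_le_sum_abs _ _).trans ((sum_le_sum (fun f _ => hterm f)).trans ?_)
  rw [sum_const, card_univ, Fintype.card_fun, Fintype.card_fin, Fintype.card_fin, nsmul_eq_mul]
  push_cast
  rfl

end Pool.Agent.Y910.E
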