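import Pool.Agent.Y910.S.C2

/-!
Vanishing interpolation determinants give an auxiliary curve.
-/

open Polynomial Finset

namespace Pool.Agent.Y910.E

open Pool.Agent.H322R2 Pool.Agent.Y910.S

lemma clear_den {ι : Type*} [Fintype ι] (q : ι → ℚ) : ∃ (D : ℕ) (T : ι → ℤ), 0 < D ∧
    ∀ j, (T j : ℚ) = D * q j := by
  obtain ⟨D, hD⟩ : ∃ D : ℕ, D = ∏ j, (q j).den := ⟨_, rfl⟩
  have hD0 : 0 < D := by rw [hD]; exact Finset.prod_pos fun j _ => (q j).pos
  have h : ∀ j, ∃ t : ℤ, (t : ℚ) = D * q j := by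
    intro j
    obtain ⟨k, hk⟩ : (q j).den ∣ D := by
      rw [hD]; exact Finset.dvd_prod_of_mem (fun j => (q j).den) (Finset.mem_univ j)
    refine ⟨k * (q j).num, ?_⟩
    rw [hk]
    push_cast
    have h1 := Rat.num_div_den (q j)
    have h2 : ((q j).den : ℚ) ≠ 0 := by exact_mod_cast (q j).den_nz
    rw [div_eq_iff h2] at h1
    rw [h1]; ring
  choose T hT using h
  exact ⟨D, T, hD0, hT⟩

/-- vectors with vanishing determinants satisfy a common linear relation -/
lemma exists_rel {ι : Type} [Fintype ι] [DecidableEq ι] {P : Type} (s : Set P) (v : P → ι → ℤ)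
    (h : ∀ f : ι → P, (∀ i, f i ∈ s) → Matrix.det (Matrix.of fun i j => v (f i) j) = 0) :
    ∃ T : ι → ℤ, T ≠ 0 ∧ ∀ p ∈ s, ∑ j, T j * v p j = 0 := by
  classical
  obtain ⟨vq, hvq⟩ : ∃ vq : P → (ι → ℚ), vq = fun p j => (v p j : ℚ) := ⟨_, rfl⟩
  have hne : Submodule.span ℚ (vq '' s) ≠ ⊤ := by
    intro htop
    obtain ⟨b, hb1, hb2, hb3⟩ := exists_linearIndependent ℚ (vq '' s)
    rw [htop] at hb2
    have hbfin : Finite b := hb3.finite
    haveI : Fintype b := Fintype.ofFinite b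
    obtain ⟨B, hB⟩ : ∃ B : Module.Basis b ℚ (ι → ℚ), ⇑B = ((↑) : b → ι → ℚ) :=
      ⟨Module.Basis.mk hb3 (by rw [Subtype.range_coe]; exact hb2.ge), Module.Basis.coe_mk _ _⟩
    have hcard : Fintype.card b = Fintype.card ι := by
      rw [← Module.finrank_eq_card_basis B, Module.finrank_pi]
    obtain ⟨e⟩ : Nonempty (ι ≃ b) := Fintype.card_eq.1 hcard.symm
    have hch : ∀ i, ∃ p ∈ s, vq p = (e i : ι → ℚ) := fun i => by
      obtain ⟨p, hp, h⟩ := hb1 (e i).2
      exact ⟨p, hp, h⟩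
    choose f hf1 hf2 using hch
    have hdet := h f hf1
    have hli : LinearIndependent ℚ (fun i => (e i : ι → ℚ)) := hb3.comp e e.injective
    have h2 : LinearIndependent ℚ (Matrix.of fun i j => (v (f i) j : ℚ)).row := by
      have h3 : (Matrix.of fun i j => (v (f i) j : ℚ)).row = fun i => (e i : ι → ℚ) := by
        funext i
        rw [← hf2 i, hvq]
        rfl
      rw [h3]
      exact hli
    rw [Matrix.linearIndependent_rows_iff_isUnit, Matrix.isUnit_iff_isUnit_det] at h2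
    have h4 : (Matrix.of fun i j => (v (f i) j : ℚ)).det = 0 := by
      have h5 := congrArg (Int.castRingHom ℚ) hdet
      rw [RingHom.map_det, map_zero] at h5
      exact h5
    rw [h4] at h2
    exact not_isUnit_zero h2
  obtain ⟨f, hf0, hf⟩ := Submodule.exists_le_ker_of_lt_top _ (lt_top_iff_ne_top.2 hne)
  obtain ⟨D, T, hD, hT⟩ := clear_den (fun j => f (Pi.single j 1))
  have hD' : (D : ℚ) ≠ 0 := by positivity
  have hfx : ∀ x : ι → ℚ, f x = ∑ j, f (Pi.single j 1) * x j := by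
    intro x
    have h1 : x = ∑ j, x j • (Pi.single j (1 : ℚ) : ι → ℚ) := by
      funext i
      simp [Finset.sum_apply, Pi.single_apply]
    conv_lhs => rw [h1]
    rw [map_sum]
    apply Finset.sum_congr rfl
    intro j _
    rw [map_smul, smul_eq_mul, mul_comm]
  refine ⟨T, ?_, ?_⟩
  · rintro rfl
    apply hf0
    apply LinearMap.ext
    intro x
    rw [hfx]
    apply Finset.sum_eq_zero
    intro j _
    have h1 := hT j
    rw [Pi.zero_apply, Int.cast_zero] at h1
    rcases mul_eq_zero.1 h1.symm with h | h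
    · exact absurd h hD'
    · rw [h, zero_mul]
  · intro p hp
    have h1 : f (vq p) = 0 := hf (Submodule.subset_span ⟨p, hp, rfl⟩)
    rw [hfx] at h1
    have h2 : ((∑ j, T j * v p j : ℤ) : ℚ) = 0 := by
      push_cast
      have h3 : ∑ j, (T j : ℚ) * (v p j : ℚ) = D * ∑ j, f (Pi.single j 1) * vq p j := by
        rw [Finset.mul_sum]
        apply Finset.sum_congr rfl
        intro j _
        rw [hT j, hvq]; ring
      rw [h3, h1, mul_zero]
    exact_mod_cast h2

/-- number of first coordinates of points on a curve whose interpolation determinants vanish -/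
theorem card_fst (G : ℤ[X][X]) (d E U : ℕ) (hd : 0 < d) (hm : G.Monic) (hGd : G.natDegree = d)
    (hG : Prime G) (hE : ∀ j, (G.coeff j).natDegree ≤ E) (s : Finset (ℤ × ℤ))
    (hs : ∀ p ∈ s, ev p.1 p.2 G = 0)
    (hdet : ∀ f : Fin d × Fin U → ℤ × ℤ, (∀ i, f i ∈ s) →
      Matrix.det (Matrix.of fun i (j : Fin d × Fin U) =>
        (f i).1 ^ (j.2 : ℕ) * (f i).2 ^ (j.1 : ℕ)) = 0) :
    (s.image Prod.fst).card ≤ d * (U + E * d) := by
  obtain ⟨T, hT0, hT⟩ := exists_rel (s : Set (ℤ × ℤ))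
    (fun p (j : Fin d × Fin U) => p.1 ^ (j.2 : ℕ) * p.2 ^ (j.1 : ℕ))
    (fun f hf => hdet f (fun i => Finset.mem_coe.1 (hf i)))
  have hne : boxPoly T ≠ 0 := fun h => hT0 ((boxPoly_eq_zero_iff T).1 h)
  have hnd : ¬ G ∣ boxPoly T := by
    intro h
    have h1 := degree_le_of_dvd h hne
    rw [degree_eq_natDegree hm.ne_zero, hGd] at h1
    exact absurd (lt_of_le_of_lt h1 (degree_boxPoly T hd)) (lt_irrefl _)
  have h1 := nrm_ne_zero G d hm hGd hG (boxPoly T) hnd
  have hdeg : (nrm G d (boxPoly T)).natDegree ≤ d * (U + E * d) := by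
    apply natDegree_det_le
    intro i j
    exact natDegree_aeval_comp G d E hE _ d U (natDegree_boxPoly _ hd)
      (natDegree_coeff_boxPoly _) i j
  refine le_trans ?_ hdeg
  refine le_trans ?_ (card_roots' _)
  refine le_trans (Finset.card_le_card ?_) (Multiset.toFinset_card_le _)
  intro a ha
  rw [Finset.mem_image] at ha
  obtain ⟨p, hp, rfl⟩ := ha
  rw [Multiset.mem_toFinset, mem_roots h1, IsRoot]
  have h2 := dvd_nrm (evf p.1) p.2 G d hd hm hGd (by rw [← ev_apply]; exact hs p hp) (boxPoly T)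
  have h3 : ev p.1 p.2 (boxPoly T) = 0 := by
    rw [ev_boxPoly]
    have h4 := hT p (Finset.mem_coe.2 hp)
    rw [← h4]
    apply Finset.sum_congr rfl
    intro j _
    simp only [Int.cast_id]
    ring
  rw [← ev_apply, h3] at h2
  have h4 : evf p.1 (nrm G d (boxPoly T)) = 0 := zero_dvd_iff.1 h2
  have h5 : evf p.1 = (Polynomial.evalRingHom p.1 : ℤ[X] →+* ℤ) := by
    apply Polynomial.ringHom_ext'
    · exact RingHom.ext_int _ _
    · simp
  rw [h5] at h4
  simpa using h4

end Pool.Agent.Y910.E
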